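import Pool.Agent.Helper71.TVE.Step

/-!
# Stars in every dimension (MP_92efc2)
-/

set_option autoImplicit false

open Finset

namespace Pool.Agent.Helper71.TVE

open Pool.Agent.Helper71.TVS

variable {E : Type*} [NormedAddCommGroup E] [NormedSpace ℝ E] [DecidableEq E]

theorem iterate [FiniteDimensional ℝ E] {d k : ℕ} (hd : Module.finrank ℝ E = d) (hk : 1 ≤ k) (hkd : 2 * k ≤ d)
    (hkd' : d ≤ 2 * k + 1) {δ : ℝ} (hδ : 0 < δ) (hδ1 : δ ≤ 1) :
    ∃ N₁ : ℕ, ∀ (n : ℕ) (Y : Finset E), Y.card = n → GP d Y → ∃ F : Finset (Finset E),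
      (∀ A ∈ F, A ⊆ Y ∧ A.card ≤ k + 1 ∧ Meet A (Y \ F.biUnion id)) ∧
      (∀ A ∈ F, ∀ A' ∈ F, A ≠ A' → ¬ Meet A A') ∧
      (1 - δ) * ((Y.card : ℝ) - N₁) ≤ ((k : ℝ) + 1) * F.card := by
  classical
  obtain ⟨N₁, hN₁⟩ := step hd hk hkd hkd' hδ hδ1
  refine ⟨N₁, fun n => ?_⟩
  induction n using Nat.strong_induction_on with
  | _ n ih =>
    intro Y hYn hY
    rcases Nat.lt_or_ge Y.card N₁ with hlt | hge
    · refine ⟨∅, fun A hA => absurd hA (notMem_empty A), fun A hA => absurd hA (notMem_empty A), ?_⟩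
      have h1 : (Y.card : ℝ) ≤ N₁ := by exact_mod_cast hlt.le
      have h2 : (1 - δ) * ((Y.card : ℝ) - N₁) ≤ 0 :=
        mul_nonpos_of_nonneg_of_nonpos (by linarith) (by linarith)
      simpa using h2
    · obtain ⟨Y', C, F₁, hO⟩ := hN₁ Y hY hge
      obtain ⟨F₂, h1, h2, h3⟩ := ih Y'.card (by rw [← hYn]; exact hO.lt) Y' rfl (GP.mono hY hO.sub)
      have hne₁ : ∀ A ∈ F₁, A.Nonempty := fun A hA => (hO.leaf A hA).2.2.2.1.left
      have hdisF : Disjoint F₁ F₂ := by
        rw [disjoint_left]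
        intro A hA hA'
        obtain ⟨y, hy⟩ := hne₁ A hA
        exact (mem_sdiff.1 ((hO.leaf A hA).1 hy)).2 ((h1 A hA').1 hy)
      refine ⟨F₁ ∪ F₂, ?_, ?_, ?_⟩
      · intro A hA
        rcases mem_union.1 hA with hA | hA
        · obtain ⟨h4, -, h6, h7, -⟩ := hO.leaf A hA
          refine ⟨h4.trans sdiff_subset, h6, h7.mono Subset.rfl ?_⟩
          intro y hy
          rw [mem_sdiff, mem_biUnion]
          refine ⟨hO.cen hy, ?_⟩
          rintro ⟨A', hA', hyA'⟩
          rcases mem_union.1 hA' with hA' | hA'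
          · exact disjoint_left.1 (hO.leaf A' hA').2.1 hyA' hy
          · exact disjoint_left.1 hO.dis hy ((h1 A' hA').1 hyA')
        · obtain ⟨h4, h5, h6⟩ := h1 A hA
          refine ⟨h4.trans hO.sub, h5, h6.mono Subset.rfl ?_⟩
          intro y hy
          rw [mem_sdiff, mem_biUnion] at hy ⊢
          refine ⟨hO.sub hy.1, ?_⟩
          rintro ⟨A', hA', hyA'⟩
          rcases mem_union.1 hA' with hA' | hA'
          · exact (mem_sdiff.1 ((hO.leaf A' hA').1 hyA')).2 hy.1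
          · exact hy.2 ⟨A', hA', hyA'⟩
      · intro A hA A' hA' hne
        rcases mem_union.1 hA with h4 | h4
        · rcases mem_union.1 hA' with h5 | h5
          · exact hO.pair A h4 A' h5 hne
          · exact (hO.leaf A h4).2.2.2.2 A' (h1 A' h5).1 (h1 A' h5).2.1
        · rcases mem_union.1 hA' with h5 | h5
          · exact fun h => (hO.leaf A' h5).2.2.2.2 A (h1 A h4).1 (h1 A h4).2.1 h.symm
          · exact h2 A h4 A' h5 hne
      · rw [card_union_of_disjoint hdisF]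
        have h4 : ((Y \ Y').card : ℝ) + Y'.card = Y.card := by
          exact_mod_cast card_sdiff_add_card_eq_card hO.sub
        have h5 := hO.card
        push_cast
        rw [← h4]
        linarith

/-- **stars in every dimension**: for large `S`, all `j` up to nearly `|S|/(k+1)`, where `k` is half the dimension -/
theorem star_all [FiniteDimensional ℝ E] {d k : ℕ} (hd : Module.finrank ℝ E = d) (hk : 1 ≤ k) (hkd : 2 * k ≤ d)
    (hkd' : d ≤ 2 * k + 1) {δ : ℝ} (hδ : 0 < δ) :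
    ∃ N₀ : ℕ, ∀ S : Finset E, GP d S → N₀ ≤ S.card → ∀ j : ℕ,
      ((k : ℝ) + 1) * j ≤ (1 - δ) * S.card →
      ∃ P : Fin (j + 1) → Finset E, (∀ i, (P i).Nonempty) ∧ (∀ i i', i ≠ i' → Disjoint (P i) (P i')) ∧
      (∀ x, x ∈ S ↔ ∃ i, x ∈ P i) ∧ ∀ i i', i ≠ i' → (Meet (P i) (P i') ↔ i = 0 ∨ i' = 0) := by
  classical
  set δ' : ℝ := min δ 1 / 2 with hδ'
  have hδ'0 : 0 < δ' := by
    have := lt_min hδ (zero_lt_one (α := ℝ))
    positivity
  have hδ'1 : δ' ≤ 1 := by
    have := min_le_right δ 1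
    linarith
  have hδ'2 : δ' ≤ δ / 2 := by
    have := min_le_left δ 1
    linarith
  obtain ⟨N₁, hN₁⟩ := iterate (E := E) hd hk hkd hkd' hδ'0 hδ'1
  obtain ⟨N₂, hN₂⟩ := exists_nat_gt (2 * (N₁ : ℝ) / δ)
  refine ⟨max N₂ 1, fun S hS hSc j hj => ?_⟩
  have hc1 : N₂ ≤ S.card := (le_max_left _ _).trans hSc
  have hc2 : 1 ≤ S.card := (le_max_right _ _).trans hSc
  obtain ⟨F, h1, h2, h3⟩ := hN₁ S.card S rfl hS
  have hjF : j ≤ F.card := by
    have h4 : 2 * (N₁ : ℝ) < S.card * δ := by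
      have h5 : 2 * (N₁ : ℝ) / δ < S.card := lt_of_lt_of_le hN₂ (by exact_mod_cast hc1)
      exact (div_lt_iff₀ hδ).1 h5
    have hS0 : (0 : ℝ) ≤ S.card := Nat.cast_nonneg _
    have hN0 : (0 : ℝ) ≤ N₁ := Nat.cast_nonneg _
    have h5 : (1 - δ) * S.card ≤ (1 - δ') * ((S.card : ℝ) - N₁) := by
      have h6 : δ' * S.card ≤ δ / 2 * S.card := mul_le_mul_of_nonneg_right hδ'2 hS0
      have h7 : 0 ≤ δ' * N₁ := mul_nonneg hδ'0.le hN0
      nlinarith
    have h6 : ((k : ℝ) + 1) * j ≤ ((k : ℝ) + 1) * F.card := hj.trans (h5.trans h3)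
    have h7 : (j : ℝ) ≤ F.card := le_of_mul_le_mul_left h6 (by positivity)
    exact_mod_cast h7
  obtain ⟨F', hF', hF'c⟩ := exists_subset_card_eq hjF
  let e : Fin j ≃ F' := (Fin.castOrderIso hF'c.symm).toEquiv.trans F'.equivFin.symm
  let L : Fin j → Finset E := fun i => (e i : Finset E)
  have hLF : ∀ i, L i ∈ F := fun i => hF' (e i).2
  have hLne : ∀ i i', i ≠ i' → L i ≠ L i' := fun i i' h h' => h (e.injective (Subtype.ext h'))
  have hLS : ∀ i, L i ⊆ S := fun i => (h1 _ (hLF i)).1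
  have hLm : ∀ i, Meet (L i) (S \ univ.biUnion L) := by
    intro i
    refine (h1 _ (hLF i)).2.2.mono Subset.rfl ?_
    refine sdiff_subset_sdiff Subset.rfl ?_
    intro x hx
    obtain ⟨i', -, hi'⟩ := mem_biUnion.1 hx
    exact mem_biUnion.2 ⟨L i', hLF i', hi'⟩
  have hLd : ∀ i i', i ≠ i' → Disjoint (L i) (L i') := by
    intro i i' hii
    rw [disjoint_left]
    intro x hx hx'
    exact h2 _ (hLF i) _ (hLF i') (hLne i i' hii) ⟨x, subset_convexHull ℝ _ (mem_coe.2 hx),
      subset_convexHull ℝ _ (mem_coe.2 hx')⟩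
  have hLC : ∀ i, Disjoint (S \ univ.biUnion L) (L i) := by
    intro i
    rw [disjoint_left]
    intro x hx hx'
    exact (mem_sdiff.1 hx).2 (mem_biUnion.2 ⟨i, mem_univ _, hx'⟩)
  refine ⟨Fin.cons (S \ univ.biUnion L) L, ?_, ?_, ?_, ?_⟩
  · intro i
    refine Fin.cases ?_ (fun i => ?_) i
    · rw [Fin.cons_zero]
      rcases Nat.eq_zero_or_pos j with hj0 | hj0
      · subst hj0
        have : univ.biUnion L = ∅ := by simp
        rw [this, sdiff_empty]
        exact card_pos.1 (by omega)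
      · exact (hLm ⟨0, hj0⟩).symm.left
    · rw [Fin.cons_succ]
      exact (hLm i).left
  · intro i i'
    refine Fin.cases ?_ (fun i => ?_) i
    · refine Fin.cases (fun h => absurd rfl h) (fun i' _ => ?_) i'
      exact hLC i'
    · refine Fin.cases (fun _ => ?_) (fun i' h => ?_) i'
      · exact (hLC i).symm
      · exact hLd i i' fun h' => h (by rw [h'])
  · intro x
    constructor
    · intro hx
      by_cases h : x ∈ univ.biUnion L
      · obtain ⟨i, -, hi⟩ := mem_biUnion.1 h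
        exact ⟨i.succ, hi⟩
      · exact ⟨0, mem_sdiff.2 ⟨hx, h⟩⟩
    · rintro ⟨i, hi⟩
      revert hi
      refine Fin.cases ?_ (fun i => ?_) i
      · exact fun h => (mem_sdiff.1 h).1
      · exact fun h => hLS i h
  · intro i i'
    refine Fin.cases ?_ (fun i => ?_) i
    · refine Fin.cases (fun h => absurd rfl h) (fun i' _ => ?_) i'
      simp only [Fin.cons_zero, Fin.cons_succ, true_or, iff_true]
      exact (hLm i').symm
    · refine Fin.cases (fun _ => ?_) (fun i' h => ?_) i'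
      · simp only [Fin.cons_zero, Fin.cons_succ, or_true, iff_true]
        exact hLm i
      · simp only [Fin.cons_succ, Fin.succ_ne_zero, or_self, iff_false]
        exact h2 _ (hLF i) _ (hLF i') (hLne i i' fun h' => h (by rw [h']))

end Pool.Agent.Helper71.TVE
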