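import Pool.Agent.Helper71.TVS.Star

/-!
# Points of given depth (MP_92efc2)
-/

set_option autoImplicit false

open Finset

namespace Pool.Agent.Helper71.TVE

open Pool.Agent.Helper71.TVS

variable {E : Type*} [NormedAddCommGroup E] [NormedSpace ℝ E] [DecidableEq E]

/-- the points that stay in the hull of `Y` when any `m` points are removed -/
def Kb (Y : Finset E) (m : ℕ) : Set E :=
  {x | ∀ R ⊆ Y, R.card ≤ m → x ∈ convexHull ℝ ((Y \ R : Finset E) : Set E)}

theorem Kb_anti {Y : Finset E} {m m' : ℕ} (h : m' ≤ m) : Kb Y m ⊆ Kb Y m' :=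
  fun _ hx R hR hc => hx R hR (hc.trans h)

theorem Kb_mono {X Y : Finset E} (h : X ⊆ Y) (m : ℕ) : Kb X m ⊆ Kb Y m := by
  intro x hx R hR hc
  refine convexHull_mono ?_ (hx (R ∩ X) inter_subset_right ((card_le_card inter_subset_left).trans hc))
  intro y hy
  rw [mem_coe, mem_sdiff, mem_inter, not_and] at hy
  rw [mem_coe, mem_sdiff]
  exact ⟨h hy.1, fun hyR => hy.2 hyR hy.1⟩

theorem Kb_subset (Y : Finset E) (m : ℕ) : Kb Y m ⊆ convexHull ℝ (Y : Set E) := by
  intro x hx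
  have := hx ∅ (empty_subset _) (by simp)
  rwa [sdiff_empty] at this

theorem Kb_sub {Y W : Finset E} {m : ℕ} {x : E} (hx : x ∈ Kb Y m) (hc : (Y \ W).card ≤ m) :
    x ∈ convexHull ℝ (W : Set E) := by
  refine convexHull_mono ?_ (hx (Y \ W) sdiff_subset hc)
  intro y hy
  rw [mem_coe, mem_sdiff, mem_sdiff, not_and, not_not] at hy
  exact hy.2 hy.1

theorem Kb_eq (Y : Finset E) (m : ℕ) : Kb Y m = ⋂ R ∈ (Y.powerset.filter (fun R => R.card ≤ m)),
    convexHull ℝ ((Y \ R : Finset E) : Set E) := by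
  ext x
  simp only [Kb, Set.mem_ofPred_eq, Set.mem_iInter, mem_filter, mem_powerset, and_imp]

theorem Kb_convex (Y : Finset E) (m : ℕ) : Convex ℝ (Kb Y m) := by
  rw [Kb_eq]
  exact convex_iInter₂ fun _ _ => convex_convexHull ℝ _

theorem Kb_compact (Y : Finset E) (m : ℕ) : IsCompact (Kb Y m) := by
  have h1 : IsClosed (Kb Y m) := by
    rw [Kb_eq]
    exact isClosed_biInter fun R _ => (Y \ R).finite_toSet.isClosed_convexHull ℝ
  exact (Y.finite_toSet.isCompact_convexHull ℝ).of_isClosed_subset h1 (Kb_subset Y m)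

/-- centre points -/
theorem Kb_nonempty [FiniteDimensional ℝ E] {X : Finset E} {m : ℕ} (h : (Module.finrank ℝ E + 1) * m < X.card) :
    (Kb X m).Nonempty := by
  rw [Kb_eq]
  refine Convex.helly_theorem' (fun _ _ => convex_convexHull ℝ _) ?_
  intro I hI hIc
  have h1 : (I.biUnion id).card ≤ (Module.finrank ℝ E + 1) * m := by
    refine (card_biUnion_le_card_mul I id m fun R hR => ?_).trans (Nat.mul_le_mul_right _ hIc)
    exact (mem_filter.1 (hI hR)).2
  obtain ⟨x, hx, hx'⟩ := exists_mem_notMem_of_card_lt_card (lt_of_le_of_lt h1 h)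
  refine ⟨x, Set.mem_iInter₂.2 fun R hR => subset_convexHull ℝ _ ?_⟩
  rw [mem_coe, mem_sdiff]
  exact ⟨hx, fun h => hx' (mem_biUnion.2 ⟨R, hR, h⟩)⟩

/-- hitting sets -/
theorem Kb_net {Y B : Finset E} {m : ℕ} (hB : ∀ X ∈ Fam Y, m < X.card → ¬ Disjoint X B) :
    Kb Y m ⊆ convexHull ℝ (B : Set E) := by
  intro x hx
  by_contra hcon
  obtain ⟨f, u, h1, h2⟩ := geometric_hahn_banach_closed_point (convex_convexHull ℝ (B : Set E))
    (B.finite_toSet.isClosed_convexHull ℝ) hcon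
  set X := Y.filter (fun y => u ≤ f y) with hX
  have hXF : X ∈ Fam Y := by
    refine mem_Fam.2 ⟨filter_subset _ _, fun h => ?_⟩
    refine not_meet_of_sep (f : E →ₗ[ℝ] ℝ) u (A := Y \ X) (B := X) ?_ ?_ h.symm
    · intro y hy
      rw [mem_sdiff, hX, mem_filter, not_and] at hy
      exact not_le.1 (hy.2 hy.1)
    · intro y hy
      exact (mem_filter.1 hy).2
  have hdis : Disjoint X B := by
    rw [disjoint_left]
    intro y hy hy'
    have h3 := (mem_filter.1 hy).2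
    have h4 := h1 y (subset_convexHull ℝ _ (mem_coe.2 hy'))
    linarith
  have hc : X.card ≤ m := by
    by_contra h
    exact hB X hXF (not_le.1 h) hdis
  have h5 := hx X (filter_subset _ _) hc
  have h6 : convexHull ℝ ((Y \ X : Finset E) : Set E) ⊆ {y | f y < u} := by
    refine convexHull_min ?_ (convex_halfSpace_lt (f : E →ₗ[ℝ] ℝ).isLinear u)
    intro y hy
    rw [mem_coe, mem_sdiff, hX, mem_filter, not_and] at hy
    exact not_le.1 (hy.2 hy.1)
  have h7 : f x < u := h6 h5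
  linarith

/-- a set that misses the deep points is in a shallow half-space -/
theorem exists_shallow [FiniteDimensional ℝ E] {Y A : Finset E} {m : ℕ}
    (h : ¬ (convexHull ℝ (A : Set E) ∩ Kb Y m).Nonempty) :
    ∃ (f : E →L[ℝ] ℝ) (c : ℝ), (∀ a ∈ A, c ≤ f a) ∧ (∀ x ∈ Kb Y m, f x < c) ∧
      (Y.filter (fun y => c ≤ f y)).card ≤ (Module.finrank ℝ E + 1) * m := by
  have hd : Disjoint (Kb Y m) (convexHull ℝ (A : Set E)) := by
    rw [disjoint_comm, Set.disjoint_iff_inter_eq_empty]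
    exact Set.not_nonempty_iff_eq_empty.1 h
  obtain ⟨f, u, v, h1, h2, h3⟩ := geometric_hahn_banach_compact_closed (Kb_convex Y m) (Kb_compact Y m)
    (convex_convexHull ℝ _) (A.finite_toSet.isClosed_convexHull ℝ) hd
  refine ⟨f, v, fun a ha => (h3 a (subset_convexHull ℝ _ (mem_coe.2 ha))).le, fun x hx => (h1 x hx).trans h2, ?_⟩
  by_contra hcon
  obtain ⟨p, hp⟩ := Kb_nonempty (not_le.1 hcon)
  have h4 := h1 p (Kb_mono (filter_subset _ _) m hp)
  have h5 : convexHull ℝ ((Y.filter (fun y => v ≤ f y) : Finset E) : Set E) ⊆ {y | v ≤ f y} := by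
    refine convexHull_min ?_ (convex_halfSpace_ge (f : E →ₗ[ℝ] ℝ).isLinear v)
    intro y hy
    exact (mem_filter.1 (mem_coe.1 hy)).2
  have h6 : v ≤ f p := h5 (Kb_subset _ _ hp)
  linarith

/-- the ray: removing `m` points suffices to make the ray shallow nowhere -/
theorem exists_waste {Y : Finset E} {m : ℕ} {o : E} (ho : o ∈ Kb Y m) (u : E) :
    ∃ R ⊆ Y, R.card ≤ m ∧ ∀ t : ℝ, 0 ≤ t → o + t • u ∈ convexHull ℝ ((Y \ R : Finset E) : Set E) →
      o + t • u ∈ Kb Y m := by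
  by_contra hcon
  push Not at hcon
  choose! τ hτ0 hτ1 hτ2 using hcon
  have hne : (Y.powerset.filter (fun R => R.card ≤ m)).Nonempty := ⟨∅, by simp⟩
  obtain ⟨R₀, hR₀, hmin⟩ := exists_min_image _ τ hne
  rw [mem_filter, mem_powerset] at hR₀
  have h1 := hτ2 R₀ hR₀.1 hR₀.2
  simp only [Kb, Set.mem_ofPred_eq, not_forall] at h1
  obtain ⟨R₁, hR₁, hR₁c, h2⟩ := h1
  apply h2
  have h3 := hmin R₁ (mem_filter.2 ⟨mem_powerset.2 hR₁, hR₁c⟩)
  have h4 := hτ1 R₁ hR₁ hR₁c
  have h5 := ho R₁ hR₁ hR₁c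
  have h6 := hτ0 R₀ hR₀.1 hR₀.2
  rcases (hτ0 R₁ hR₁ hR₁c).eq_or_lt with h7 | h7
  · have h8 : τ R₀ = 0 := le_antisymm (h3.trans h7.symm.le) h6
    rw [h8, zero_smul, add_zero]
    exact h5
  · have h8 : o + τ R₀ • u = (1 - τ R₀ / τ R₁) • o + (τ R₀ / τ R₁) • (o + τ R₁ • u) := by
      rw [smul_add, smul_smul, div_mul_cancel₀ _ h7.ne', ← add_assoc, ← add_smul, sub_add_cancel, one_smul]
    rw [h8]
    refine (convex_convexHull ℝ _) h5 h4 ?_ (div_nonneg h6 h7.le) (by ring)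
    rw [sub_nonneg, div_le_one h7]
    exact h3

end Pool.Agent.Helper71.TVE
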