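import Pool.Agent.Helper71.TVE.Depth

/-!
# The last face on a ray (MP_92efc2)
-/

set_option autoImplicit false

open Finset

namespace Pool.Agent.Helper71.TVE

open Pool.Agent.Helper71.TVS

variable {E : Type*} [NormedAddCommGroup E] [NormedSpace ℝ E] [DecidableEq E]

omit [DecidableEq E] in
theorem GP.mono {d : ℕ} {S T : Finset E} (h : GP d S) (hT : T ⊆ S) : GP d T :=
  fun A hA => h A (hA.trans hT)

omit [DecidableEq E] in
theorem affInd_eq [FiniteDimensional ℝ E] {d : ℕ} (hd : Module.finrank ℝ E = d) {S A : Finset E}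
    (hS : GP d S) (hA : A ⊆ S) (hc : A.card = d + 1) : AffineIndependent ℝ (fun x : A => (x : E)) := by
  by_contra hcon
  have hcard : Fintype.card A = d + 1 := by rw [Fintype.card_coe, hc]
  rw [affineIndependent_iff_le_finrank_vectorSpan ℝ _ hcard, not_le] at hcon
  have hlt : vectorSpan ℝ (Set.range fun x : A => (x : E)) < ⊤ := by
    rw [lt_top_iff_ne_top]
    intro h
    rw [h, finrank_top, hd] at hcon
    exact lt_irrefl _ hcon
  obtain ⟨φ, hφ, hker⟩ := Submodule.exists_le_ker_of_lt_top _ hlt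
  obtain ⟨x₀, hx₀⟩ : A.Nonempty := card_pos.1 (by omega)
  refine hS A hA hc φ (φ x₀) hφ fun x hx => ?_
  have h1 : x -ᵥ x₀ ∈ vectorSpan ℝ (Set.range fun x : A => (x : E)) :=
    vsub_mem_vectorSpan ℝ ⟨⟨x, hx⟩, rfl⟩ ⟨⟨x₀, hx₀⟩, rfl⟩
  have h2 := hker h1
  rw [LinearMap.mem_ker, vsub_eq_sub, map_sub, sub_eq_zero] at h2
  exact h2

theorem affInd [FiniteDimensional ℝ E] {d : ℕ} (hd : Module.finrank ℝ E = d) {S A : Finset E}
    (hS : GP d S) (hSc : d + 1 ≤ S.card) (hA : A ⊆ S) (hc : A.card ≤ d + 1) :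
    AffineIndependent ℝ (fun x : A => (x : E)) := by
  obtain ⟨U, hAU, hU, hUc⟩ := exists_subsuperset_card_eq hA hc hSc
  have h := affInd_eq hd hS hU hUc
  exact h.comp_embedding (⟨fun x : A => (⟨x, hAU x.2⟩ : U), fun x y hxy => by
    have := congrArg (fun z : U => (z : E)) hxy
    exact Subtype.ext this⟩ : A ↪ U)

/-- disjoint sets with at most `d + 1` points together have disjoint hulls -/
theorem not_meet_small [FiniteDimensional ℝ E] {d : ℕ} (hd : Module.finrank ℝ E = d) {S A A' : Finset E}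
    (hS : GP d S) (hSc : d + 1 ≤ S.card) (hA : A ⊆ S) (hA' : A' ⊆ S) (hAA : Disjoint A A')
    (hc : A.card + A'.card ≤ d + 1) : ¬ Meet A A' := by
  have hind := affInd hd hS hSc (union_subset hA hA') ((card_union_le A A').trans hc)
  rintro ⟨z, hz⟩
  rw [← hind.convexHull_inter subset_union_left subset_union_right] at hz
  have h3 : ((A : Set E) ∩ (A' : Set E)) = ∅ := by
    rw [← Set.disjoint_iff_inter_eq_empty]
    exact_mod_cast hAA
  rw [h3, convexHull_empty] at hz
  exact hz

omit [DecidableEq E] in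
/-- faces -/
theorem mem_face {T : Finset E} (f : E →L[ℝ] ℝ) (c : ℝ) (hT : ∀ y ∈ T, f y ≤ c) {p : E}
    (hp : p ∈ convexHull ℝ (T : Set E)) (hc : f p = c) :
    p ∈ convexHull ℝ ((T.filter (fun y => f y = c) : Finset E) : Set E) := by
  rw [Finset.mem_convexHull'] at hp ⊢
  obtain ⟨w, hw0, hw1, hwp⟩ := hp
  have hsum : ∑ y ∈ T, w y * (c - f y) = 0 := by
    have h1 : f p = ∑ y ∈ T, w y * f y := by
      rw [← hwp, map_sum]
      exact sum_congr rfl fun y _ => by rw [map_smul, smul_eq_mul]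
    have h2 : ∑ y ∈ T, w y * (c - f y) = c * ∑ y ∈ T, w y - ∑ y ∈ T, w y * f y := by
      rw [mul_sum, ← sum_sub_distrib]
      exact sum_congr rfl fun y _ => by ring
    rw [h2, hw1, ← h1, hc]
    ring
  have hz : ∀ y ∈ T, w y * (c - f y) = 0 :=
    (sum_eq_zero_iff_of_nonneg fun y hy => mul_nonneg (hw0 y hy) (by linarith [hT y hy])).1 hsum
  have hw : ∀ y ∈ T, f y ≠ c → w y = 0 := by
    intro y hy hne
    rcases mul_eq_zero.1 (hz y hy) with h | h
    · exact h
    · exact absurd (by linarith) hne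
  refine ⟨w, fun y hy => hw0 y (mem_filter.1 hy).1, ?_, ?_⟩
  · rw [← hw1, sum_filter]
    refine sum_congr rfl fun y hy => ?_
    split_ifs with h
    · rfl
    · exact (hw y hy h).symm
  · rw [← hwp, sum_filter]
    refine sum_congr rfl fun y hy => ?_
    split_ifs with h
    · rfl
    · rw [hw y hy h, zero_smul]

/-- the last point of a ray in a hull, and its face -/
theorem exists_last [FiniteDimensional ℝ E] {d : ℕ} (hd : Module.finrank ℝ E = d) {W : Finset E}
    (hW : GP d W) (hc : d + 1 ≤ W.card) {o u : E} (ho : o ∈ convexHull ℝ (W : Set E)) (hu : u ≠ 0) :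
    ∃ (Z : Finset E) (t : ℝ) (f : E →L[ℝ] ℝ) (c : ℝ), Z ⊆ W ∧ Z.card ≤ d ∧ 0 ≤ t ∧
      o + t • u ∈ convexHull ℝ (Z : Set E) ∧ (∀ y ∈ Z, f y = c) ∧ ∀ y ∈ W \ Z, f y < c := by
  -- the last point
  have hcomp : IsCompact {t : ℝ | o + t • u ∈ convexHull ℝ (W : Set E)} := by
    have h1 : Topology.IsClosedEmbedding (fun t : ℝ => o + t • u) :=
      (Homeomorph.addLeft o).isClosedEmbedding.comp (isClosedEmbedding_smul_left hu)
    exact h1.isCompact_preimage (W.finite_toSet.isCompact_convexHull ℝ)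
  obtain ⟨t, ht, hmax⟩ := hcomp.exists_isMaxOn ⟨0, by simpa using ho⟩ continuousOn_id
  have ht' : o + t • u ∈ convexHull ℝ (W : Set E) := ht
  have hmax' : ∀ t', o + t' • u ∈ convexHull ℝ (W : Set E) → t' ≤ t := fun t' h => hmax h
  have ht0 : 0 ≤ t := hmax' 0 (by simpa using ho)
  -- the interior
  obtain ⟨U, hU, hUc⟩ := exists_subset_card_eq hc
  have hind := affInd_eq hd hW hU hUc
  have hspan : affineSpan ℝ (W : Set E) = ⊤ := by
    have h1 : affineSpan ℝ (Set.range fun x : U => (x : E)) = ⊤ := by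
      refine hind.affineSpan_eq_top_iff_card_eq_finrank_add_one.2 ?_
      rw [Fintype.card_coe, hUc, hd]
    rw [eq_top_iff, ← h1]
    refine affineSpan_mono ℝ ?_
    rintro _ ⟨x, rfl⟩
    exact hU x.2
  have hint : (interior (convexHull ℝ (W : Set E))).Nonempty :=
    interior_convexHull_nonempty_iff_affineSpan_eq_top.2 hspan
  have hnot : o + t • u ∉ interior (convexHull ℝ (W : Set E)) := by
    intro h
    have hcont : Continuous (fun s : ℝ => o + s • u) := by fun_prop
    have h1 : ∀ᶠ s in nhds t, o + s • u ∈ interior (convexHull ℝ (W : Set E)) :=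
      hcont.continuousAt.eventually_mem (isOpen_interior.mem_nhds h)
    have h2 : ∀ᶠ s in nhdsWithin t (Set.Ioi t), o + s • u ∈ interior (convexHull ℝ (W : Set E)) :=
      h1.filter_mono nhdsWithin_le_nhds
    obtain ⟨s, hs, hs'⟩ := (h2.and self_mem_nhdsWithin).exists
    have h3 := hmax' s (interior_subset hs)
    exact absurd hs' (not_lt.2 h3)
  obtain ⟨f, hf⟩ := geometric_hahn_banach_open_point (convex_convexHull ℝ (W : Set E)).interior isOpen_interior hnot
  have hle : ∀ y ∈ convexHull ℝ (W : Set E), f y ≤ f (o + t • u) := by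
    have h1 : closure (interior (convexHull ℝ (W : Set E))) = closure (convexHull ℝ (W : Set E)) :=
      (convex_convexHull ℝ _).closure_interior_eq_closure_of_nonempty_interior hint
    intro y hy
    have h2 : y ∈ closure (interior (convexHull ℝ (W : Set E))) := by
      rw [h1]
      exact subset_closure hy
    exact closure_minimal (fun z hz => (hf z hz).le) (isClosed_le f.continuous continuous_const) h2
  have hf0 : (f : E →ₗ[ℝ] ℝ) ≠ 0 := by
    intro h0
    obtain ⟨y, hy⟩ := hint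
    have h1 := hf y hy
    have h2 : ∀ z, f z = 0 := fun z => by
      have := LinearMap.congr_fun h0 z
      simpa using this
    rw [h2, h2] at h1
    exact lt_irrefl _ h1
  set c := f (o + t • u) with hcdef
  refine ⟨W.filter (fun y => f y = c), t, f, c, filter_subset _ _, ?_, ht0, ?_, fun y hy => (mem_filter.1 hy).2, ?_⟩
  · by_contra hcon
    obtain ⟨A, hA, hAc⟩ := exists_subset_card_eq (s := W.filter (fun y => f y = c)) (n := d + 1) (by omega)
    exact hW A (hA.trans (filter_subset _ _)) hAc (f : E →ₗ[ℝ] ℝ) c hf0 fun x hx => (mem_filter.1 (hA hx)).2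
  · exact mem_face f c (fun y hy => hle y (subset_convexHull ℝ _ (mem_coe.2 hy))) ht' rfl
  · intro y hy
    rw [mem_sdiff, mem_filter, not_and] at hy
    exact lt_of_le_of_ne (hle y (subset_convexHull ℝ _ (mem_coe.2 hy.1))) (hy.2 hy.1)

/-- a subset of a small face is separated from the rest -/
theorem not_meet_face [FiniteDimensional ℝ E] {d : ℕ} (hd : Module.finrank ℝ E = d) {W : Finset E}
    (hW : GP d W) (hc : d + 1 ≤ W.card) {Z : Finset E} {f : E →L[ℝ] ℝ} {c : ℝ} (hZ : Z ⊆ W) (hZc : Z.card ≤ d)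
    (h1 : ∀ y ∈ Z, f y = c) (h2 : ∀ y ∈ W \ Z, f y < c) {σ : Finset E} (hσ : σ ⊆ Z) : ¬ Meet σ (W \ σ) := by
  rintro ⟨p, hp, hp'⟩
  have h3 : convexHull ℝ (σ : Set E) ⊆ {y | f y = c} := by
    refine convexHull_min (fun y hy => h1 y (hσ hy)) ?_
    exact convex_hyperplane (f : E →ₗ[ℝ] ℝ).isLinear c
  have h4 : f p = c := h3 hp
  have h5 := mem_face f c (T := W \ σ) (fun y hy => by
    by_cases h : y ∈ Z
    · exact (h1 y h).le
    · exact (h2 y (mem_sdiff.2 ⟨(mem_sdiff.1 hy).1, h⟩)).le) hp' h4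
  have h6 : (W \ σ).filter (fun y => f y = c) ⊆ Z \ σ := by
    intro y hy
    rw [mem_filter, mem_sdiff] at hy
    rw [mem_sdiff]
    refine ⟨?_, hy.1.2⟩
    by_contra h
    exact (h2 y (mem_sdiff.2 ⟨hy.1.1, h⟩)).ne hy.2
  refine not_meet_small hd hW hc (hσ.trans hZ) (sdiff_subset.trans hZ) (A' := Z \ σ) disjoint_sdiff ?_
    ⟨p, hp, convexHull_mono (coe_subset.2 h6) h5⟩
  rw [card_sdiff_of_subset hσ]
  have := card_le_card hσ
  omega

end Pool.Agent.Helper71.TVE
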