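import Pool.Agent.Helper71.TVE.Stuck

/-!
# One round of peeling (MP_92efc2)
-/

set_option autoImplicit false

open Finset

namespace Pool.Agent.Helper71.TVE

open Pool.Agent.Helper71.TVS

variable {E : Type*} [NormedAddCommGroup E] [NormedSpace ℝ E] [DecidableEq E]

/-- many crossing sets -/
theorem harvest {d a M : ℕ} {Y σ G : Finset E} (ha : d + 2 ≤ a + σ.card)
    (hR : ∀ R, G ⊆ R → R ⊆ Y → R.card ≤ M → ∃ A ⊆ Y \ R, A.card + σ.card ≤ d + 2 ∧ Meet A σ) (j : ℕ) :
    ∀ R, G ⊆ R → R ⊆ Y → R.card + a * j ≤ M → ∃ L : Fin j → Finset E,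
      (∀ i, L i ⊆ Y \ R ∧ (L i).card + σ.card ≤ d + 2 ∧ Meet (L i) σ) ∧ ∀ i i', i ≠ i' → Disjoint (L i) (L i') := by
  induction j with
  | zero => exact fun R _ _ _ => ⟨Fin.elim0, fun i => i.elim0, fun i => i.elim0⟩
  | succ j ih =>
    intro R hGR hRY hRc
    rw [mul_add, mul_one] at hRc
    obtain ⟨A, hA, hAc, hAm⟩ := hR R hGR hRY (by omega)
    obtain ⟨L, hL, hLd⟩ := ih (R ∪ A) (hGR.trans subset_union_left) (union_subset hRY (hA.trans sdiff_subset)) (by
      have := card_union_le R A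
      omega)
    have hLA : ∀ i, L i ⊆ Y \ R := fun i => (hL i).1.trans (sdiff_subset_sdiff Subset.rfl subset_union_left)
    have hdis : ∀ i, Disjoint A (L i) := by
      intro i
      rw [disjoint_left]
      intro x hx hx'
      exact (mem_sdiff.1 ((hL i).1 hx')).2 (mem_union_right _ hx)
    refine ⟨Fin.cons A L, ?_, ?_⟩
    · intro i
      refine Fin.cases ?_ (fun i => ?_) i
      · exact ⟨hA, hAc, hAm⟩
      · exact ⟨hLA i, (hL i).2.1, (hL i).2.2⟩
    · intro i i'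
      refine Fin.cases ?_ (fun i => ?_) i
      · refine Fin.cases (fun h => absurd rfl h) (fun i' _ => ?_) i'
        exact hdis i'
      · refine Fin.cases (fun _ => ?_) (fun i' h => ?_) i'
        · exact (hdis i).symm
        · exact hLd i i' fun h' => h (by rw [h'])

/-- a valid state: `W` is left, the sets of `F` have been peeled -/
structure Valid (k : ℕ) (Y B R W : Finset E) (F : Finset (Finset E)) : Prop where
  sub : W ⊆ Y
  disB : Disjoint W B
  disR : Disjoint W R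
  card : (Y \ W).card ≤ B.card + R.card + (k + 1) * F.card
  leaf : ∀ A ∈ F, A ⊆ Y \ W ∧ Disjoint A B ∧ A.card ≤ k + 1 ∧ Meet A B ∧ ¬ Meet A W
  pair : ∀ A ∈ F, ∀ A' ∈ F, A ≠ A' → ¬ Meet A A'

/-- one round -/
theorem round [FiniteDimensional ℝ E] {d k : ℕ} (hd : Module.finrank ℝ E = d) (hk : 1 ≤ k) (hkd : 2 * k ≤ d)
    {Y B : Finset E} (hY : GP d Y) {Mf : ℕ → ℕ} {m₀ : ℕ}
    (hMf : ∀ s, k + 2 ≤ s → s ≤ d → Mf (s - 1) ≤ Mf s) (hMd : Mf d ≤ m₀) (hm₀ : (d + 1) * m₀ < Y.card)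
    (hYc : m₀ + d + 1 ≤ Y.card) (hnet : Kb Y (Mf (k + 1)) ⊆ convexHull ℝ (B : Set E)) :
    (∃ (W : Finset E) (F : Finset (Finset E)), W ⊆ Y ∧ Disjoint B W ∧ m₀ < (Y \ W).card ∧
      (Y \ W).card ≤ B.card + Mf d + (k + 1) * F.card ∧
      (∀ A ∈ F, A ⊆ Y \ W ∧ Disjoint A B ∧ A.card ≤ k + 1 ∧ Meet A B ∧ ¬ Meet A W) ∧
      ∀ A ∈ F, ∀ A' ∈ F, A ≠ A' → ¬ Meet A A') ∨
    ∃ σ ⊆ Y, k + 2 ≤ σ.card ∧ σ.card ≤ d ∧ (∃ x ∈ convexHull ℝ (σ : Set E), x ∈ Kb Y (Mf σ.card)) ∧
      ∀ y ∈ σ, ¬ (convexHull ℝ ((σ.erase y : Finset E) : Set E) ∩ Kb Y (Mf (σ.card - 1))).Nonempty := by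
  classical
  by_contra hcon
  rw [not_or] at hcon
  obtain ⟨hI, hII⟩ := hcon
  obtain ⟨o, ho⟩ := Kb_nonempty (X := Y) (m := m₀) (by rw [hd]; exact hm₀)
  have hnt : Nontrivial E := Module.nontrivial_of_finrank_pos (R := ℝ) (by rw [hd]; omega)
  obtain ⟨u, hu⟩ := exists_ne (0 : E)
  obtain ⟨R, hRY, hRc, hray⟩ := exists_waste (m := Mf d) (Kb_anti hMd ho) u
  -- the initial state
  have hinit : Valid k Y B R ((Y \ B) \ R) ∅ := by
    refine ⟨sdiff_subset.trans sdiff_subset, ?_, ?_, ?_, fun A hA => absurd hA (notMem_empty A),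
      fun A hA => absurd hA (notMem_empty A)⟩
    · exact disjoint_of_subset_left sdiff_subset sdiff_disjoint
    · exact sdiff_disjoint
    · have h1 : Y \ ((Y \ B) \ R) ⊆ B ∪ R := by
        intro x hx
        rw [mem_sdiff, mem_sdiff, mem_sdiff] at hx
        rw [mem_union]
        by_contra h
        rw [not_or] at h
        exact hx.2 ⟨⟨hx.1, h.1⟩, h.2⟩
      have h2 := card_le_card h1
      have h3 := card_union_le B R
      omega
  have hex : ∃ n, ∃ (W : Finset E) (F : Finset (Finset E)), Valid k Y B R W F ∧ W.card = n :=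
    ⟨_, _, _, hinit, rfl⟩
  obtain ⟨W, F, hV, hWn⟩ := Nat.find_spec hex
  have hmin : ∀ (W' : Finset E) (F' : Finset (Finset E)), Valid k Y B R W' F' → W.card ≤ W'.card := by
    intro W' F' h'
    rw [hWn]
    exact Nat.find_min' hex ⟨W', F', h', rfl⟩
  by_cases hbig : m₀ < (Y \ W).card
  · refine hI ⟨W, F, hV.sub, hV.disB.symm, hbig, ?_, hV.leaf, hV.pair⟩
    have := hV.card
    omega
  rw [not_lt] at hbig
  have hWc : d + 1 ≤ W.card := by
    have h1 := card_sdiff_add_card_eq_card hV.sub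
    omega
  have hoW : o ∈ convexHull ℝ (W : Set E) := Kb_sub ho hbig
  obtain ⟨Z, t, f, c, hZ, hZc, ht, hz, hf1, hf2⟩ := exists_last hd (GP.mono hY hV.sub) hWc hoW hu
  have hzK : o + t • u ∈ Kb Y (Mf d) := by
    refine hray t ht (convexHull_mono ?_ hz)
    intro y hy
    rw [mem_coe, mem_sdiff]
    exact ⟨hV.sub (hZ hy), disjoint_left.1 hV.disR (hZ hy)⟩
  have hex2 : ∃ s, k + 1 ≤ s ∧ s ≤ d ∧ ∃ σ ⊆ Z, σ.card ≤ s ∧ (convexHull ℝ (σ : Set E) ∩ Kb Y (Mf s)).Nonempty :=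
    ⟨d, by omega, le_rfl, Z, Subset.rfl, hZc, _, hz, hzK⟩
  obtain ⟨hs1, hs2, σ, hσZ, hσc, x, hx, hxK⟩ := Nat.find_spec hex2
  have hmin2 : ∀ s' < Nat.find hex2, ¬ (k + 1 ≤ s' ∧ s' ≤ d ∧ ∃ σ ⊆ Z, σ.card ≤ s' ∧
      (convexHull ℝ (σ : Set E) ∩ Kb Y (Mf s')).Nonempty) := fun s' h => Nat.find_min hex2 h
  set s := Nat.find hex2 with hs
  have hσW : σ ⊆ W := hσZ.trans hZ
  have hσne : σ.Nonempty := by
    rw [nonempty_iff_ne_empty]
    rintro rfl
    simp at hx
  rcases hs1.eq_or_lt with hsk | hsk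
  · -- a leaf
    rw [← hsk] at hσc hxK
    have hσB : Disjoint σ B := disjoint_of_subset_left hσW hV.disB
    have hface : ¬ Meet σ (W \ σ) := not_meet_face hd (GP.mono hY hV.sub) hWc hZ hZc hf1 hf2 hσZ
    have hσF : σ ∉ F := by
      intro h
      obtain ⟨y, hy⟩ := hσne
      exact (mem_sdiff.1 ((hV.leaf σ h).1 hy)).2 (hσW hy)
    have hV' : Valid k Y B R (W \ σ) (insert σ F) := by
      refine ⟨sdiff_subset.trans hV.sub, disjoint_of_subset_left sdiff_subset hV.disB,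
        disjoint_of_subset_left sdiff_subset hV.disR, ?_, ?_, ?_⟩
      · have h1 : Y \ (W \ σ) ⊆ (Y \ W) ∪ σ := by
          intro y hy
          rw [mem_sdiff, mem_sdiff] at hy
          rw [mem_union, mem_sdiff]
          by_cases h : y ∈ σ
          · exact Or.inr h
          · exact Or.inl ⟨hy.1, fun h' => hy.2 ⟨h', h⟩⟩
        have h2 := card_le_card h1
        have h3 := card_union_le (Y \ W) σ
        have h4 := hV.card
        rw [card_insert_of_notMem hσF, mul_add, mul_one]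
        omega
      · intro A hA
        rcases mem_insert.1 hA with rfl | hA
        · refine ⟨?_, hσB, hσc, ⟨x, hx, hnet hxK⟩, hface⟩
          intro y hy
          rw [mem_sdiff, mem_sdiff]
          exact ⟨hV.sub (hσW hy), fun h => h.2 hy⟩
        · obtain ⟨h1, h2, h3, h4, h5⟩ := hV.leaf A hA
          exact ⟨h1.trans (sdiff_subset_sdiff Subset.rfl sdiff_subset), h2, h3, h4,
            fun h => h5 (h.mono Subset.rfl sdiff_subset)⟩
      · intro A hA A' hA' hne hm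
        rcases mem_insert.1 hA with h1 | h1
        · rcases mem_insert.1 hA' with h2 | h2
          · exact hne (h1.trans h2.symm)
          · rw [h1] at hm
            exact (hV.leaf A' h2).2.2.2.2 (hm.symm.mono Subset.rfl hσW)
        · rcases mem_insert.1 hA' with h2 | h2
          · rw [h2] at hm
            exact (hV.leaf A h1).2.2.2.2 (hm.mono Subset.rfl hσW)
          · exact hV.pair A h1 A' h2 hne hm
    have h1 := hmin _ _ hV'
    have h2 : (W \ σ).card < W.card := card_lt_card (sdiff_ssubset hσW hσne)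
    omega
  · -- stuck
    have hle : Mf (s - 1) ≤ Mf s := hMf s hsk hs2
    have hσs : σ.card = s := by
      refine le_antisymm hσc ?_
      by_contra h
      exact hmin2 (s - 1) (by omega) ⟨by omega, by omega, σ, hσZ, by omega, x, hx, Kb_anti hle hxK⟩
    refine hII ⟨σ, hσW.trans hV.sub, by omega, by omega, ⟨x, hx, by rw [hσs]; exact hxK⟩, ?_⟩
    intro y hy hne
    rw [hσs] at hne
    refine hmin2 (s - 1) (by omega) ⟨by omega, by omega, σ.erase y, (erase_subset _ _).trans hσZ, ?_, hne⟩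
    rw [card_erase_of_mem hy, hσs]

end Pool.Agent.Helper71.TVE
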