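import Pool.Agent.Helper71.TVP.PlaneStar
import Pool.Agent.Helper71.TVE.All

/-!
# Stars in a slab, small or large (MP_92efc2)
-/

set_option autoImplicit false

open Finset

namespace Pool.Agent.Helper71.TVE

open Pool.Agent.Helper33.TVT (BT Gen cls mem_cls place attach_of_place)

section

variable {V : Type*}

/-- the forest of isolated nodes -/
def forest : List V → BT V
  | [] => BT.nil
  | v :: l => BT.node v BT.nil (forest l)

theorem verts_forest (l : List V) : (forest l).verts = l := by
  induction l with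
  | nil => rfl
  | cons v l ih => simp [forest, BT.verts, ih]

theorem roots_forest (l : List V) : (forest l).roots = l := by
  induction l with
  | nil => rfl
  | cons v l ih => simp [forest, BT.roots, ih]

theorem size_forest (l : List V) : (forest l).size = l.length := by
  induction l with
  | nil => rfl
  | cons v l ih => simp [forest, BT.size, ih]

theorem rel_forest (l : List V) (a b : V) : ¬ (forest l).rel a b := by
  induction l with
  | nil => exact fun h => h
  | cons v l ih =>
    simp only [forest, BT.rel, BT.roots, List.not_mem_nil, and_false, false_or]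
    exact ih

end

/-- `D` carries a star with `l` leaves whose centre is joined through the set `K` -/
def Carries {E : Type*} [AddCommGroup E] [Module ℝ E] (K D : Finset E) (l : ℕ) : Prop :=
  ∃ (Q : Finset E) (P : Fin l → Finset E), (∀ i, (P i).Nonempty) ∧ (∀ i, Disjoint Q (P i)) ∧
    (∀ x, x ∈ D ↔ x ∈ Q ∨ ∃ i, x ∈ P i) ∧
    (∀ i, Pool.Agent.Helper33.TVT.Meet ((K : Set E) ∪ (Q : Set E)) (P i : Set E)) ∧
    ∀ i j, i ≠ j → ¬ Pool.Agent.Helper33.TVT.Meet (P i : Set E) (P j : Set E)

theorem Carries.mono {E : Type*} [AddCommGroup E] [Module ℝ E] {K K' D : Finset E} {l : ℕ} (h : Carries K D l)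
    (hK : K ⊆ K') : Carries K' D l := by
  obtain ⟨Q, P, h1, h2, h3, h4, h5⟩ := h
  exact ⟨Q, P, h1, h2, h3, fun i => (h4 i).mono (Set.union_subset_union_left _ (coe_subset.2 hK)) subset_rfl, h5⟩

/-- few leaves: `d + 1` points each -/
theorem carries_small {E : Type*} [AddCommGroup E] [Module ℝ E] [FiniteDimensional ℝ E] {f g : E →ₗ[ℝ] ℝ} {d : ℕ}
    (hd : Module.finrank ℝ E = d) {p : E} {D S : Finset E} (hG : Gen f g S) (hDS : D ⊆ S)
    (hlt : ∀ x ∈ D, f p < f x) {l : ℕ} (hD : (d + 1) * l ≤ D.card) : Carries {p} D l := by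
  classical
  have hnd : (forest (List.finRange l)).verts.Nodup := by
    rw [verts_forest]
    exact List.nodup_finRange l
  obtain ⟨c, h1, h2, h3, h4⟩ := attach_of_place (place f g hd (forest (List.finRange l)) hnd) {p} D
    (singleton_nonempty p) (hG.mono hDS) (fun x hx y hy => by
      rw [mem_singleton.1 hx]
      exact hlt y hy) (by rw [size_forest, List.length_finRange]; exact hD)
  rw [verts_forest] at h1 h2 h3 h4
  rw [roots_forest] at h3
  refine ⟨cls c D none, fun i => cls c D (some i), fun i => h2 i (List.mem_finRange i), ?_, ?_, ?_, ?_⟩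
  · intro i
    rw [disjoint_left]
    intro x hx hx'
    rw [mem_cls] at hx hx'
    rw [hx.2] at hx'
    exact absurd hx'.2 (by simp)
  · intro x
    constructor
    · intro hx
      rcases hc : c x with _ | i
      · exact Or.inl (mem_cls.2 ⟨hx, hc⟩)
      · exact Or.inr ⟨i, mem_cls.2 ⟨hx, hc⟩⟩
    · rintro (h | ⟨i, h⟩)
      · exact (mem_cls.1 h).1
      · exact (mem_cls.1 h).1
  · intro i
    exact (h3 i (List.mem_finRange i)).2 (List.mem_finRange i)
  · intro i j hij h
    rcases (h4 i (List.mem_finRange i) j (List.mem_finRange j) hij).1 h with h | h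
    · exact rel_forest _ _ _ h
    · exact rel_forest _ _ _ h

/-- many leaves: a little more than `k + 1` points each -/
theorem carries_large {E : Type*} [NormedAddCommGroup E] [NormedSpace ℝ E] [FiniteDimensional ℝ E] {d k : ℕ}
    (hd : Module.finrank ℝ E = d) (hk : 1 ≤ k) (hkd : 2 * k ≤ d) (hkd' : d ≤ 2 * k + 1) {δ : ℝ} (hδ : 0 < δ) :
    ∃ N₀ : ℕ, ∀ (K D : Finset E), Pool.Agent.Helper71.TVS.GP d D → N₀ ≤ D.card → ∀ l : ℕ,
      ((k : ℝ) + 1) * l ≤ (1 - δ) * D.card → Carries K D l := by
  classical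
  obtain ⟨N₀, hN₀⟩ := star_all (E := E) hd hk hkd hkd' hδ
  refine ⟨N₀, fun K D hD hDc l hl => ?_⟩
  obtain ⟨P, h1, h2, h3, h4⟩ := hN₀ D hD hDc l hl
  refine ⟨P 0, fun i => P i.succ, fun i => h1 _, fun i => h2 _ _ (Fin.succ_ne_zero i).symm, ?_, ?_, ?_⟩
  · intro x
    rw [h3]
    constructor
    · rintro ⟨i, hi⟩
      rcases Fin.eq_zero_or_eq_succ i with rfl | ⟨j, rfl⟩
      · exact Or.inl hi
      · exact Or.inr ⟨j, hi⟩
    · rintro (h | ⟨i, h⟩)
      · exact ⟨0, h⟩
      · exact ⟨i.succ, h⟩
  · intro i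
    have h5 : Pool.Agent.Helper33.TVT.Meet (P 0 : Set E) (P i.succ : Set E) :=
      (h4 0 i.succ (Fin.succ_ne_zero i).symm).2 (Or.inl rfl)
    exact h5.mono Set.subset_union_right subset_rfl
  · intro i j hij h
    rcases (h4 i.succ j.succ fun h' => hij (Fin.succ_injective _ h')).1 h with h | h
    · exact Fin.succ_ne_zero _ h
    · exact Fin.succ_ne_zero _ h

end Pool.Agent.Helper71.TVE
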