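import Pool.Agent.Helper71.TVE.Round
import Pool.Agent.Helper71.TVS.Upper

/-!
# One round with all constants chosen (MP_92efc2)
-/

set_option autoImplicit false

open Finset

namespace Pool.Agent.Helper71.TVE

open Pool.Agent.Helper71.TVS

variable {E : Type*} [NormedAddCommGroup E] [NormedSpace ℝ E] [DecidableEq E]

/-- small hitting sets -/
theorem exists_net [FiniteDimensional ℝ E] {q : ℕ} (hq0 : 0 < q) {ε : ℝ} (hε0 : 0 < ε) (hε1 : ε ≤ 1 / 2) :
    ∃ N₀ : ℕ, ∀ Y : Finset E, N₀ ≤ Y.card → ∀ m : ℕ, ε * Y.card ≤ (m : ℝ) + 1 →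
      ∃ B ⊆ Y, B.card ≤ Y.card / q ∧ Kb Y m ⊆ convexHull ℝ (B : Set E) := by
  classical
  set D := Module.finrank ℝ E with hD
  obtain ⟨t₀, ht₀⟩ := poly_exp (((D : ℝ) + 2) * (q : ℝ) ^ (D + 1)) (1 - ε) (D + 1) (by linarith) (by linarith)
  refine ⟨max (q * (t₀ + 1)) 1, fun Y hYc m hm => ?_⟩
  have hN1 : q * (t₀ + 1) ≤ Y.card := (le_max_left _ _).trans hYc
  have hN3 : 1 ≤ Y.card := (le_max_right _ _).trans hYc
  set N := Y.card with hN
  have hN0 : (0 : ℝ) < (N : ℝ) := by exact_mod_cast hN3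
  set t := N / q with ht
  have htt : t₀ ≤ t := by
    rw [ht, Nat.le_div_iff_mul_le hq0]
    calc t₀ * q ≤ q * (t₀ + 1) := by nlinarith
      _ ≤ N := hN1
  have hNt : N + 1 ≤ q * (t + 1) := Nat.lt_mul_div_succ N hq0
  set F := (Fam Y).filter (fun X => m < X.card) with hF
  obtain ⟨B, hBS, hBt, hBc⟩ := exists_hit Y F ε (by linarith) (fun X hX => (mem_Fam.1 (mem_filter.1 hX).1).1)
    (fun X hX => by
      have h1 := (mem_filter.1 hX).2
      have h2 : (m : ℝ) + 1 ≤ X.card := by exact_mod_cast h1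
      rw [← hN]
      linarith) (card_pos.1 (by omega)) t
  have hFc : (F.card : ℝ) ≤ ((D : ℝ) + 2) * ((q : ℝ) * (t + 1)) ^ (D + 1) := by
    have h1 : F.card ≤ (D + 2) * (N + 1) ^ (D + 1) := (card_filter_le _ _).trans (card_Fam Y)
    have h2 : F.card ≤ (D + 2) * (q * (t + 1)) ^ (D + 1) :=
      h1.trans (Nat.mul_le_mul_left _ (Nat.pow_le_pow_left hNt _))
    exact_mod_cast h2
  have hunhit : ((F.filter (fun X => Disjoint X B)).card : ℝ) < 1 := by
    refine lt_of_le_of_lt hBc ?_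
    have h1 := ht₀ t htt
    have h2 : (1 - ε) ^ t * (F.card : ℝ) ≤
        (1 - ε) ^ t * (((D : ℝ) + 2) * ((q : ℝ) * (t + 1)) ^ (D + 1)) :=
      mul_le_mul_of_nonneg_left hFc (pow_nonneg (by linarith) _)
    refine lt_of_le_of_lt h2 (lt_of_le_of_lt (le_of_eq ?_) h1)
    rw [mul_pow]
    ring
  have hunhit' : F.filter (fun X => Disjoint X B) = ∅ := by
    rw [← card_eq_zero]
    have : (F.filter (fun X => Disjoint X B)).card < 1 := by exact_mod_cast hunhit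
    omega
  refine ⟨B, hBS, hBt, Kb_net fun X hX hXm hdis => ?_⟩
  have : X ∈ F.filter (fun X => Disjoint X B) := mem_filter.2 ⟨mem_filter.2 ⟨hX, hXm⟩, hdis⟩
  rw [hunhit'] at this
  exact notMem_empty _ this

/-- the outcome of a round -/
structure Outcome (k : ℕ) (δ : ℝ) (Y Y' C : Finset E) (F : Finset (Finset E)) : Prop where
  sub : Y' ⊆ Y
  lt : Y'.card < Y.card
  cen : C ⊆ Y
  dis : Disjoint C Y'
  leaf : ∀ A ∈ F, A ⊆ Y \ Y' ∧ Disjoint A C ∧ A.card ≤ k + 1 ∧ Meet A C ∧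
    ∀ A' ⊆ Y', A'.card ≤ k + 1 → ¬ Meet A A'
  pair : ∀ A ∈ F, ∀ A' ∈ F, A ≠ A' → ¬ Meet A A'
  card : (1 - δ) * (Y \ Y').card ≤ ((k : ℝ) + 1) * F.card

theorem step [FiniteDimensional ℝ E] {d k : ℕ} (hd : Module.finrank ℝ E = d) (hk : 1 ≤ k) (hkd : 2 * k ≤ d)
    (hkd' : d ≤ 2 * k + 1) {δ : ℝ} (hδ : 0 < δ) (hδ1 : δ ≤ 1) :
    ∃ N₁ : ℕ, ∀ Y : Finset E, GP d Y → N₁ ≤ Y.card → ∃ (Y' C : Finset E) (F : Finset (Finset E)),
      Outcome k δ Y Y' C F := by
  classical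
  -- the constants
  obtain ⟨q, hq⟩ := exists_nat_gt (4 * ((d : ℝ) + 2) / δ)
  have hq1 : 4 * ((d : ℝ) + 2) < q * δ := (div_lt_iff₀ hδ).1 hq
  have hq0 : (0 : ℝ) < q := lt_trans (by positivity) hq
  have hq0' : 0 < q := by exact_mod_cast hq0
  have hqd : d + 2 ≤ q := by
    have h1 : (q : ℝ) * δ ≤ q := by nlinarith
    have h2 : ((d : ℝ) + 2) ≤ q := by nlinarith
    exact_mod_cast h2
  obtain ⟨J, hJ⟩ := exists_nat_gt ((d : ℝ) / δ)
  have hJ1 : (d : ℝ) < J * δ := (div_lt_iff₀ hδ).1 hJ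
  set κ : ℕ := 2 * (d * (d + 1)) with hκ
  have hκ0 : 0 < κ := by
    rw [hκ]
    have : 0 < d := by omega
    positivity
  have hqκ : (0 : ℝ) < (q : ℝ) * (κ : ℝ) ^ d := by positivity
  set ε : ℝ := min (1 / 2) (1 / ((q : ℝ) * (κ : ℝ) ^ d)) with hε
  have hε0 : 0 < ε := lt_min (by norm_num) (by positivity)
  obtain ⟨N₂, hN₂⟩ := exists_net (E := E) hq0' hε0 (min_le_left _ _)
  refine ⟨max N₂ ((q * κ ^ d) * (2 * (d + (k + 1) * J) + 4 * (d + 2))), fun Y hY hYc => ?_⟩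
  set n := Y.card with hn
  have hn2 : N₂ ≤ n := (le_max_left _ _).trans hYc
  have hn3 : (q * κ ^ d) * (2 * (d + (k + 1) * J) + 4 * (d + 2)) ≤ n := (le_max_right _ _).trans hYc
  have hqκ1 : 1 ≤ q * κ ^ d := Nat.mul_pos hq0' (pow_pos hκ0 _)
  have hn4 : 4 * (d + 2) ≤ n := by
    refine le_trans ?_ hn3
    calc 4 * (d + 2) ≤ 2 * (d + (k + 1) * J) + 4 * (d + 2) := Nat.le_add_left _ _
      _ = 1 * (2 * (d + (k + 1) * J) + 4 * (d + 2)) := (one_mul _).symm
      _ ≤ _ := Nat.mul_le_mul_right _ hqκ1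
  set Mf : ℕ → ℕ := fun s => n / q / κ ^ (d - s) with hMf
  set m₀ : ℕ := n / (d + 2) with hm₀
  have hMfd : Mf d = n / q := by simp [hMf]
  have hstep : ∀ s, k + 2 ≤ s → s ≤ d → Mf (s - 1) = Mf s / κ := by
    intro s hs1 hs2
    simp only [hMf]
    rw [show d - (s - 1) = d - s + 1 by omega, pow_succ, Nat.div_div_eq_div_mul (n / q)]
  have hlarge : ∀ s, s ≤ d → 2 * (d + (k + 1) * J) ≤ Mf s := by
    intro s hs
    simp only [hMf]
    rw [Nat.div_div_eq_div_mul, Nat.le_div_iff_mul_le (Nat.mul_pos hq0' (pow_pos hκ0 _))]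
    refine le_trans ?_ hn3
    rw [mul_comm]
    exact Nat.mul_le_mul (Nat.mul_le_mul_left _ (Nat.pow_le_pow_right hκ0 (Nat.sub_le _ _))) (Nat.le_add_right _ _)
  -- the hitting set
  obtain ⟨B, hBY, hBc, hnet⟩ := hN₂ Y hn2 (Mf (k + 1)) (by
    have h1 : ε ≤ 1 / ((q : ℝ) * (κ : ℝ) ^ d) := min_le_right _ _
    have h2 : ((q * κ ^ (d - (k + 1)) : ℕ) : ℝ) ≤ (q : ℝ) * (κ : ℝ) ^ d := by
      have : q * κ ^ (d - (k + 1)) ≤ q * κ ^ d :=
        Nat.mul_le_mul_left _ (Nat.pow_le_pow_right hκ0 (Nat.sub_le _ _))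
      exact_mod_cast this
    have hpos : 0 < q * κ ^ (d - (k + 1)) := Nat.mul_pos hq0' (pow_pos hκ0 _)
    have h3 : n < (q * κ ^ (d - (k + 1))) * (Mf (k + 1) + 1) := by
      simp only [hMf]
      rw [Nat.div_div_eq_div_mul]
      exact Nat.lt_mul_div_succ n hpos
    have h4 : (n : ℝ) < ((q * κ ^ (d - (k + 1)) : ℕ) : ℝ) * ((Mf (k + 1) : ℝ) + 1) := by exact_mod_cast h3
    have h5 : (n : ℝ) ≤ ((q : ℝ) * (κ : ℝ) ^ d) * ((Mf (k + 1) : ℝ) + 1) :=
      h4.le.trans (mul_le_mul_of_nonneg_right h2 (by positivity))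
    calc ε * (n : ℝ) ≤ 1 / ((q : ℝ) * (κ : ℝ) ^ d) * (((q : ℝ) * (κ : ℝ) ^ d) * ((Mf (k + 1) : ℝ) + 1)) :=
          mul_le_mul h1 h5 (Nat.cast_nonneg _) (by positivity)
      _ = (Mf (k + 1) : ℝ) + 1 := by
          field_simp)
  have hm₀1 : (d + 1) * m₀ < n := by
    have h1 : (d + 2) * m₀ ≤ n := Nat.mul_div_le n (d + 2)
    have h2 : 1 ≤ m₀ := by
      rw [hm₀, Nat.le_div_iff_mul_le (by omega)]
      omega
    nlinarith
  have hm₀2 : m₀ + d + 1 ≤ n := by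
    have h1 : (d + 2) * m₀ ≤ n := Nat.mul_div_le n (d + 2)
    have h2 : 2 * m₀ ≤ (d + 2) * m₀ := Nat.mul_le_mul_right _ (by omega)
    omega
  have hMm : Mf d ≤ m₀ := by
    rw [hMfd, hm₀]
    exact Nat.div_le_div_left hqd (by omega)
  rcases round hd hk hkd hY (Mf := Mf) (m₀ := m₀) (fun s h1 h2 => by
    rw [hstep s h1 h2]; exact Nat.div_le_self _ _) hMm hm₀1 hm₀2 hnet with
    ⟨W, F, hW, hBW, hbig, hcard, hleaf, hpair⟩ | ⟨σ, hσ, hσ1, hσ2, ⟨x, hx, hxK⟩, hfac⟩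
  · -- peeled
    refine ⟨W, B, F, hW, ?_, hBY, hBW, ?_, hpair, ?_⟩
    · have h1 := card_sdiff_add_card_eq_card hW
      omega
    · intro A hA
      obtain ⟨h1, h2, h3, h4, h5⟩ := hleaf A hA
      exact ⟨h1, h2, h3, h4, fun A' hA' _ h => h5 (h.mono Subset.rfl hA')⟩
    · have h1 : (m₀ : ℝ) ≤ (Y \ W).card := by exact_mod_cast hbig.le
      have h2 : ((Y \ W).card : ℝ) ≤ B.card + Mf d + ((k : ℝ) + 1) * F.card := by exact_mod_cast hcard
      have h3 : (B.card : ℝ) ≤ (n : ℝ) / q := le_trans (by exact_mod_cast hBc) Nat.cast_div_le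
      have h4 : (Mf d : ℝ) ≤ (n : ℝ) / q := by
        rw [hMfd]
        exact Nat.cast_div_le
      have h5 : (n : ℝ) < ((d : ℝ) + 2) * (m₀ + 1) := by
        have : n < (d + 2) * (m₀ + 1) := Nat.lt_mul_div_succ n (by omega)
        exact_mod_cast this
      have h6 : (4 : ℝ) * (d + 2) ≤ n := by exact_mod_cast hn4
      -- `2 n / q ≤ δ m₀`
      have h7 : 2 * ((n : ℝ) / q) ≤ δ * m₀ := by
        rw [← mul_div_assoc, div_le_iff₀ hq0]
        have h8 : (n : ℝ) ≤ 2 * ((d : ℝ) + 2) * m₀ := by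
          nlinarith
        have h9 : (0 : ℝ) ≤ (m₀ : ℝ) := Nat.cast_nonneg _
        nlinarith
      have h10 : δ * m₀ ≤ δ * (Y \ W).card := mul_le_mul_of_nonneg_left h1 hδ.le
      linarith
  · -- stuck
    obtain ⟨s, hs⟩ : ∃ s, s = σ.card := ⟨_, rfl⟩
    have hYc' : d + 1 ≤ Y.card := by omega
    have hle : Mf (σ.card - 1) ≤ Mf σ.card := by
      rw [hstep _ hσ1 hσ2]
      exact Nat.div_le_self _ _
    obtain ⟨G, hGY, hGc, hσG, hG⟩ := exists_crossing hd hY hYc' hσ (by omega) hσ2 hle hx hxK hfac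
    have hGJ : G.card + (k + 1) * J ≤ Mf σ.card := by
      have h1 : κ * Mf (σ.card - 1) ≤ Mf σ.card := by
        rw [hstep _ hσ1 hσ2]
        exact Nat.mul_div_le _ _
      have h2 : 2 * (σ.card * ((d + 1) * Mf (σ.card - 1))) ≤ κ * Mf (σ.card - 1) := by
        rw [hκ]
        calc 2 * (σ.card * ((d + 1) * Mf (σ.card - 1))) ≤ 2 * (d * ((d + 1) * Mf (σ.card - 1))) :=
              Nat.mul_le_mul_left _ (Nat.mul_le_mul_right _ hσ2)
          _ = 2 * (d * (d + 1)) * Mf (σ.card - 1) := by ring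
      have h3 := hlarge σ.card hσ2
      omega
    obtain ⟨L, hL, hLd⟩ := harvest (d := d) (a := k + 1) (by omega) hG J G Subset.rfl hGY hGJ
    have hLσ : ∀ i, Disjoint (L i) σ := by
      intro i
      rw [disjoint_left]
      intro y hy hy'
      exact (mem_sdiff.1 ((hL i).1 hy)).2 (hσG hy')
    have hLne : ∀ i, (L i).Nonempty := fun i => (hL i).2.2.left
    have hLinj : Function.Injective L := by
      intro i i' h
      by_contra hne
      have h1 := hLd i i' hne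
      rw [h, disjoint_self] at h1
      obtain ⟨y, hy⟩ := hLne i'
      rw [h1] at hy
      exact notMem_empty _ hy
    have hLY : ∀ i, L i ⊆ Y := fun i => (hL i).1.trans sdiff_subset
    refine ⟨Y \ (σ ∪ univ.biUnion L), σ, univ.image L, sdiff_subset, ?_, hσ, ?_, ?_, ?_, ?_⟩
    · refine card_lt_card (sdiff_ssubset ?_ ?_)
      · exact union_subset hσ (biUnion_subset.2 fun i _ => hLY i)
      · obtain ⟨y, hy⟩ : σ.Nonempty := card_pos.1 (by omega)
        exact ⟨y, mem_union_left _ hy⟩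
    · rw [disjoint_left]
      intro y hy hy'
      exact (mem_sdiff.1 hy').2 (mem_union_left _ hy)
    · intro A hA
      obtain ⟨i, -, rfl⟩ := mem_image.1 hA
      refine ⟨?_, hLσ i, ?_, (hL i).2.2, ?_⟩
      · intro y hy
        rw [mem_sdiff, mem_sdiff]
        exact ⟨hLY i hy, fun h => h.2 (mem_union_right _ (mem_biUnion.2 ⟨i, mem_univ _, hy⟩))⟩
      · have := (hL i).2.1
        omega
      · intro A' hA' hA'c
        have h1 := (hL i).2.1
        refine not_meet_small hd hY hYc' (hLY i) (hA'.trans sdiff_subset) ?_ (by omega)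
        rw [disjoint_left]
        intro y hy hy'
        exact (mem_sdiff.1 (hA' hy')).2 (mem_union_right _ (mem_biUnion.2 ⟨i, mem_univ _, hy⟩))
    · intro A hA A' hA' hne
      obtain ⟨i, -, rfl⟩ := mem_image.1 hA
      obtain ⟨i', -, rfl⟩ := mem_image.1 hA'
      have h1 := (hL i).2.1
      have h2 := (hL i').2.1
      exact not_meet_small hd hY hYc' (hLY i) (hLY i') (hLd i i' fun h => hne (by rw [h])) (by omega)
    · have hcJ : (univ.image L).card = J := by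
        rw [card_image_of_injective _ hLinj, card_univ, Fintype.card_fin]
      have h1 : (Y \ (Y \ (σ ∪ univ.biUnion L))).card ≤ d + (k + 1) * J := by
        have h2 : Y \ (Y \ (σ ∪ univ.biUnion L)) ⊆ σ ∪ univ.biUnion L := by
          intro y hy
          rw [mem_sdiff, mem_sdiff, not_and, not_not] at hy
          exact hy.2 hy.1
        have h3 := card_le_card h2
        have h4 := card_union_le σ (univ.biUnion L)
        have h5 : (univ.biUnion L).card ≤ J * (k + 1) := by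
          refine (card_biUnion_le_card_mul univ L (k + 1) fun i _ => ?_).trans ?_
          · have := (hL i).2.1
            omega
          · rw [card_univ, Fintype.card_fin]
        rw [mul_comm J] at h5
        omega
      have h2 : ((Y \ (Y \ (σ ∪ univ.biUnion L))).card : ℝ) ≤ d + ((k : ℝ) + 1) * J := by exact_mod_cast h1
      rw [hcJ]
      have h3 : (1 - δ) * ((Y \ (Y \ (σ ∪ univ.biUnion L))).card : ℝ) ≤ (1 - δ) * (d + ((k : ℝ) + 1) * J) :=
        mul_le_mul_of_nonneg_left h2 (by linarith)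
      have hk0 : (0 : ℝ) ≤ (k : ℝ) := Nat.cast_nonneg _
      have hd0 : (0 : ℝ) ≤ (d : ℝ) := Nat.cast_nonneg _
      have hJ0 : (0 : ℝ) ≤ (J : ℝ) := Nat.cast_nonneg _
      have h4 : (d : ℝ) ≤ δ * (d + ((k : ℝ) + 1) * J) := by
        have h5 : (0 : ℝ) ≤ δ * d := mul_nonneg hδ.le hd0
        have h6 : (0 : ℝ) ≤ δ * (k * J) := mul_nonneg hδ.le (mul_nonneg hk0 hJ0)
        nlinarith
      nlinarith

end Pool.Agent.Helper71.TVE
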