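import Pool.Agent.Helper71.TVE.Peel

/-!
# A deep face with shallow facets is crossed by many small sets (MP_92efc2)
-/

set_option autoImplicit false

open Finset

namespace Pool.Agent.Helper71.TVE

open Pool.Agent.Helper71.TVS

variable {E : Type*} [NormedAddCommGroup E] [NormedSpace ℝ E] [DecidableEq E]

/-- Caratheodory modulo a subspace -/
theorem carath [FiniteDimensional ℝ E] (V : Submodule ℝ E) {T : Finset E} {x : E}
    (hx : x ∈ convexHull ℝ (T : Set E)) :
    ∃ A ⊆ T, A.card + Module.finrank ℝ V ≤ Module.finrank ℝ E + 1 ∧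
      ∃ p ∈ convexHull ℝ (A : Set E), p - x ∈ V := by
  classical
  have h1 : V.mkQ x ∈ convexHull ℝ (V.mkQ '' (T : Set E)) := by
    rw [← LinearMap.image_convexHull]
    exact ⟨x, hx, rfl⟩
  rw [convexHull_eq_union] at h1
  simp only [Set.mem_iUnion, exists_prop] at h1
  obtain ⟨t, ht, hind, hxt⟩ := h1
  have hpre : ∀ q : E ⧸ V, ∃ y : E, q ∈ t → y ∈ T ∧ V.mkQ y = q := by
    intro q
    by_cases hq : q ∈ t
    · obtain ⟨y, hy, hy'⟩ := ht (mem_coe.2 hq)
      exact ⟨y, fun _ => ⟨hy, hy'⟩⟩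
    · exact ⟨0, fun h => absurd h hq⟩
  choose s hs using hpre
  have himg : V.mkQ '' ((t.image s : Finset E) : Set E) = (t : Set (E ⧸ V)) := by
    ext q
    simp only [Set.mem_image, coe_image, mem_coe]
    constructor
    · rintro ⟨_, ⟨q', hq', rfl⟩, rfl⟩
      rw [(hs q' hq').2]
      exact hq'
    · intro hq
      exact ⟨s q, ⟨q, hq, rfl⟩, (hs q hq).2⟩
  refine ⟨t.image s, ?_, ?_, ?_⟩
  · intro y hy
    obtain ⟨q, hq, rfl⟩ := mem_image.1 hy
    exact (hs q hq).1
  · have h2 := hind.card_le_finrank_succ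
    rw [Fintype.card_coe] at h2
    have h3 := Submodule.finrank_le (vectorSpan ℝ (Set.range (Subtype.val : t → E ⧸ V)))
    have h4 := Submodule.finrank_quotient_add_finrank V
    have h5 : (t.image s).card ≤ t.card := card_image_le
    omega
  · rw [← himg, ← LinearMap.image_convexHull] at hxt
    obtain ⟨p, hp, hpx⟩ := hxt
    refine ⟨p, hp, ?_⟩
    rw [← Submodule.ker_mkQ V, LinearMap.mem_ker, map_sub, hpx, sub_self]

/-- a point of the affine hull that avoids the shallow half-spaces is in the simplex -/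
theorem mem_simplex {σ : Finset E} {x p : E} (hx : x ∈ convexHull ℝ (σ : Set E))
    (hp : p - x ∈ vectorSpan ℝ (Set.range fun y : σ => (y : E))) (f : E → E →L[ℝ] ℝ) (c : E → ℝ)
    (h1 : ∀ y ∈ σ, ∀ a ∈ σ.erase y, c y ≤ f y a) (h2 : ∀ y ∈ σ, f y x < c y) (h3 : ∀ y ∈ σ, f y p < c y) :
    p ∈ convexHull ℝ (σ : Set E) := by
  classical
  rw [Finset.mem_convexHull'] at hx
  obtain ⟨w, hw0, hw1, hwx⟩ := hx
  rw [mem_vectorSpan_iff_eq_weightedVSub] at hp
  obtain ⟨τ, v', hv', hpx⟩ := hp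
  rw [Finset.weightedVSub_eq_linear_combination _ hv'] at hpx
  -- the coordinates of `p`
  let v : E → ℝ := fun y => w y + ∑ z ∈ τ, if (z : E) = y then v' z else 0
  have hsum0 : ∑ y ∈ σ, (∑ z ∈ τ, if (z : E) = y then v' z else 0) = 0 := by
    rw [sum_comm]
    refine Eq.trans ?_ hv'
    refine sum_congr rfl fun z hz => ?_
    rw [sum_ite_eq, if_pos z.2]
  have hv1 : ∑ y ∈ σ, v y = 1 := by
    simp only [v]
    rw [sum_add_distrib, hw1, hsum0, add_zero]
  have hvp : ∑ y ∈ σ, v y • y = p := by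
    have h4 : ∑ y ∈ σ, (∑ z ∈ τ, if (z : E) = y then v' z else 0) • y = ∑ z ∈ τ, v' z • (z : E) := by
      simp only [sum_smul]
      rw [sum_comm]
      refine sum_congr rfl fun z hz => ?_
      rw [sum_eq_single (z : E)]
      · rw [if_pos rfl]
      · intro y _ hy
        rw [if_neg (Ne.symm hy), zero_smul]
      · intro h
        exact absurd z.2 h
    simp only [v, add_smul]
    rw [sum_add_distrib, hwx, h4]
    have h5 : p = x + (p - x) := by abel
    rw [h5, hpx]
  by_contra hcon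
  have hneg : (σ.filter (fun y => v y < 0)).Nonempty := by
    by_contra h
    rw [not_nonempty_iff_eq_empty, filter_eq_empty_iff] at h
    apply hcon
    rw [Finset.mem_convexHull']
    exact ⟨v, fun y hy => not_lt.1 (h hy), hv1, hvp⟩
  obtain ⟨y, hy, hmin⟩ := exists_min_image _ (fun a => w a / (w a - v a)) hneg
  rw [mem_filter] at hy
  obtain ⟨hyσ, hyv⟩ := hy
  set t : ℝ := w y / (w y - v y) with ht
  have hden : 0 < w y - v y := by linarith [hw0 y hyσ]
  have ht0 : 0 ≤ t := div_nonneg (hw0 y hyσ) hden.le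
  have ht1 : t ≤ 1 := by
    rw [ht, div_le_one hden]
    linarith
  have hty : t * (w y - v y) = w y := by
    rw [ht]
    field_simp
  -- the point on the facet
  have hq0 : ∀ a ∈ σ, 0 ≤ (1 - t) * w a + t * v a := by
    intro a ha
    by_cases hva : v a < 0
    · have h4 := hmin a (mem_filter.2 ⟨ha, hva⟩)
      have h5 : 0 < w a - v a := by linarith [hw0 a ha]
      have h6 : t * (w a - v a) ≤ w a := by
        have := mul_le_mul_of_nonneg_right h4 h5.le
        rwa [div_mul_cancel₀ _ h5.ne'] at this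
      linarith
    · have h4 := mul_nonneg (sub_nonneg.2 ht1) (hw0 a ha)
      have h5 := mul_nonneg ht0 (not_lt.1 hva)
      linarith
  have hqy : (1 - t) * w y + t * v y = 0 := by linarith
  have hq : (1 - t) • x + t • p ∈ convexHull ℝ ((σ.erase y : Finset E) : Set E) := by
    rw [Finset.mem_convexHull']
    refine ⟨fun a => (1 - t) * w a + t * v a, fun a ha => hq0 a (mem_of_mem_erase ha), ?_, ?_⟩
    · rw [← add_zero (∑ a ∈ σ.erase y, ((1 - t) * w a + t * v a)), ← hqy, sum_erase_add _ _ hyσ, sum_add_distrib,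
        ← mul_sum, ← mul_sum, hw1, hv1]
      ring
    · have h4 : ∑ a ∈ σ.erase y, ((1 - t) * w a + t * v a) • a = ∑ a ∈ σ, ((1 - t) * w a + t * v a) • a := by
        rw [← sum_erase_add _ _ hyσ, hqy, zero_smul, add_zero]
      rw [h4]
      simp only [add_smul, mul_smul]
      rw [sum_add_distrib, ← smul_sum, ← smul_sum, hwx, hvp]
  have h4 : convexHull ℝ ((σ.erase y : Finset E) : Set E) ⊆ {a | c y ≤ f y a} :=
    convexHull_min (fun a ha => h1 y hyσ a ha) (convex_halfSpace_ge (f y : E →ₗ[ℝ] ℝ).isLinear (c y))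
  have h5 : c y ≤ f y ((1 - t) • x + t • p) := h4 hq
  rw [map_add, map_smul, map_smul, smul_eq_mul, smul_eq_mul] at h5
  have h6 := h2 y hyσ
  have h7 := h3 y hyσ
  rcases ht0.eq_or_lt with h8 | h8
  · rw [← h8] at h5
    linarith
  · have h9 := mul_lt_mul_of_pos_left h7 h8
    have h10 := mul_le_mul_of_nonneg_left h6.le (sub_nonneg.2 ht1)
    linarith

/-- **the crossing sets**: `σ` is deep, its facets are shallow -/
theorem exists_crossing [FiniteDimensional ℝ E] {d : ℕ} (hd : Module.finrank ℝ E = d) {Y σ : Finset E}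
    (hY : GP d Y) (hc : d + 1 ≤ Y.card) (hσ : σ ⊆ Y) (hσ1 : 1 ≤ σ.card) (hσd : σ.card ≤ d) {M m : ℕ} (hmM : m ≤ M)
    {x : E} (hx : x ∈ convexHull ℝ (σ : Set E)) (hxM : x ∈ Kb Y M)
    (hfac : ∀ y ∈ σ, ¬ (convexHull ℝ ((σ.erase y : Finset E) : Set E) ∩ Kb Y m).Nonempty) :
    ∃ G ⊆ Y, G.card ≤ σ.card * ((d + 1) * m) + σ.card ∧ σ ⊆ G ∧
      ∀ R, G ⊆ R → R ⊆ Y → R.card ≤ M → ∃ A ⊆ Y \ R, A.card + σ.card ≤ d + 2 ∧ Meet A σ := by
  classical
  have hsh : ∀ y : E, ∃ (f : E →L[ℝ] ℝ) (c : ℝ), y ∈ σ → (∀ a ∈ σ.erase y, c ≤ f a) ∧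
      (∀ x ∈ Kb Y m, f x < c) ∧ (Y.filter (fun y => c ≤ f y)).card ≤ (d + 1) * m := by
    intro y
    by_cases hy : y ∈ σ
    · obtain ⟨f, c, h1, h2, h3⟩ := exists_shallow (hfac y hy)
      rw [hd] at h3
      exact ⟨f, c, fun _ => ⟨h1, h2, h3⟩⟩
    · exact ⟨0, 0, fun h => absurd h hy⟩
  choose f c hfc using hsh
  refine ⟨σ.biUnion (fun y => Y.filter (fun z => c y ≤ f y z)) ∪ σ, ?_, ?_, subset_union_right, ?_⟩
  · refine union_subset (biUnion_subset.2 fun y _ => filter_subset _ _) hσ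
  · refine (card_union_le _ _).trans (Nat.add_le_add_right ?_ _)
    exact card_biUnion_le_card_mul σ _ _ fun y hy => (hfc y hy).2.2
  · intro R hGR hRY hRc
    have hxR : x ∈ convexHull ℝ ((Y \ R : Finset E) : Set E) := hxM R hRY hRc
    obtain ⟨A, hA, hAc, p, hp, hpx⟩ := carath (vectorSpan ℝ (Set.range fun y : σ => (y : E))) hxR
    have hind := affInd hd hY hc hσ (by omega)
    have hfr : Module.finrank ℝ (vectorSpan ℝ (Set.range fun y : σ => (y : E))) = σ.card - 1 :=
      hind.finrank_vectorSpan (by rw [Fintype.card_coe]; omega)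
    refine ⟨A, hA, ?_, p, hp, ?_⟩
    · rw [hfr, hd] at hAc
      omega
    · refine mem_simplex hx hpx f c (fun y hy => (hfc y hy).1) (fun y hy => (hfc y hy).2.1 x (Kb_anti hmM hxM)) ?_
      intro y hy
      have h4 : convexHull ℝ (A : Set E) ⊆ {z | f y z < c y} := by
        refine convexHull_min ?_ (convex_halfSpace_lt (f y : E →ₗ[ℝ] ℝ).isLinear (c y))
        intro z hz
        have h5 := mem_sdiff.1 (hA hz)
        by_contra h6
        exact h5.2 (hGR (mem_union_left _ (mem_biUnion.2 ⟨y, hy, mem_filter.2 ⟨h5.1, not_lt.1 h6⟩⟩)))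
      exact h4 hp

end Pool.Agent.Helper71.TVE
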