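import Pool.Agent.Helper71.TVP.Slabs
import Pool.Agent.Helper71.TVW.Inner
import Pool.Agent.Helper71.TVE.Small

/-!
# Trees in every dimension: the leaves are carved out of the slabs (MP_92efc2)
-/

set_option autoImplicit false

open Finset

namespace Pool.Agent.Helper71.TVE

open Pool.Agent.Helper33.TVT (Gen GenPos)
open Pool.Agent.Helper71.TVP (tree_slabs disjoint_of_not_meet)
open Pool.Agent.Helper71.TVW (inner leaf_unique exists_nbr nbr_inner inner_tree)

/-- the hulls of two finite sets meet -/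
abbrev M {E : Type*} [AddCommGroup E] [Module ℝ E] (A B : Finset E) : Prop :=
  Pool.Agent.Helper33.TVT.Meet (A : Set E) (B : Set E)

theorem M.mono {E : Type*} [AddCommGroup E] [Module ℝ E] {A B A' B' : Finset E} (h : M A B) (hA : A ⊆ A')
    (hB : B ⊆ B') : M A' B' :=
  Pool.Agent.Helper33.TVT.Meet.mono h (coe_subset.2 hA) (coe_subset.2 hB)

theorem M.symm {E : Type*} [AddCommGroup E] [Module ℝ E] {A B : Finset E} (h : M A B) : M B A :=
  Pool.Agent.Helper33.TVT.Meet.symm h

/-- the leaves at a node with at least `L` leaves -/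
def crowd {W : Type*} (T : SimpleGraph W) (L : ℕ) : Set W :=
  {u | u ∉ inner T ∧ ∃ v, T.Adj u v ∧ L ≤ {x | x ∉ inner T ∧ T.Adj x v}.ncard}

/-- all but few nodes are such leaves, if there are few inner nodes -/
theorem card_le_crowd {W : Type} [Fintype W] {T : SimpleGraph W} (hT : T.IsTree) (hW : 3 ≤ Fintype.card W) (L : ℕ) :
    Fintype.card W ≤ (crowd T L).ncard + (L + 1) * (inner T).ncard := by
  classical
  have hp : ∀ u : W, ∃ v : W, u ∉ inner T → T.Adj u v ∧ v ∈ inner T := by
    intro u
    by_cases hu : u ∈ inner T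
    · exact ⟨u, fun h => absurd hu h⟩
    · obtain ⟨p, hp⟩ := exists_nbr hT.connected (by omega) u
      exact ⟨p, fun _ => ⟨hp, nbr_inner hT.connected hW hu hp⟩⟩
  choose p hp using hp
  set I := univ.filter (fun u : W => u ∈ inner T) with hI
  set B := univ.filter (fun u : W => u ∈ crowd T L) with hB
  set U := univ.filter (fun u : W => u ∉ inner T ∧ u ∉ crowd T L) with hU
  have hIc : I.card = (inner T).ncard := by
    rw [← Set.ncard_coe_finset]
    congr 1
    ext u
    simp [hI]
  have hBc : B.card = (crowd T L).ncard := by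
    rw [← Set.ncard_coe_finset]
    congr 1
    ext u
    simp [hB]
  have hall : (univ : Finset W) ⊆ I ∪ (B ∪ U) := by
    intro u _
    rw [mem_union, mem_union, hI, hB, hU, mem_filter, mem_filter, mem_filter]
    by_cases h1 : u ∈ inner T
    · exact Or.inl ⟨mem_univ _, h1⟩
    · by_cases h2 : u ∈ crowd T L
      · exact Or.inr (Or.inl ⟨mem_univ _, h2⟩)
      · exact Or.inr (Or.inr ⟨mem_univ _, h1, h2⟩)
  have hUc : U.card ≤ L * I.card := by
    refine (card_le_mul_card_image U L ?_ (f := p)).trans (Nat.mul_le_mul_left _ (card_le_card ?_))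
    · intro v hv
      obtain ⟨u, hu, rfl⟩ := mem_image.1 hv
      have hu' := (mem_filter.1 hu).2
      have h1 : ¬ L ≤ {x | x ∉ inner T ∧ T.Adj x (p u)}.ncard := fun h => hu'.2 ⟨hu'.1, p u, (hp u hu'.1).1, h⟩
      refine le_trans ?_ (not_le.1 h1).le
      rw [← Set.ncard_coe_finset]
      refine Set.ncard_le_ncard ?_ (Set.toFinite _)
      intro x hx
      rw [mem_coe, mem_filter] at hx
      have hx' := (mem_filter.1 hx.1).2
      refine ⟨hx'.1, ?_⟩
      rw [← hx.2]
      exact (hp x hx'.1).1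
    · intro v hv
      obtain ⟨u, hu, rfl⟩ := mem_image.1 hv
      exact mem_filter.2 ⟨mem_univ _, (hp u (mem_filter.1 hu).2.1).2⟩
  have h1 := card_le_card hall
  have h2 := card_union_le I (B ∪ U)
  have h3 := card_union_le B U
  rw [card_univ] at h1
  rw [← hBc, ← hIc, add_mul, one_mul]
  omega

theorem tree_all {E : Type*} [NormedAddCommGroup E] [NormedSpace ℝ E] [DecidableEq E] [FiniteDimensional ℝ E]
    {d k : ℕ} (hE : Module.finrank ℝ E = d) (hk : 1 ≤ k) (hkd : 2 * k ≤ d) (hkd' : d ≤ 2 * k + 1) {ε : ℝ}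
    (hε : 0 < ε) : ∃ L : ℕ, ∀ (W : Type) [Fintype W] (T : SimpleGraph W), T.IsTree → 3 ≤ Fintype.card W →
      ∀ S : Finset E, Pool.Agent.Helper71.TVS.GP d S →
      ((k : ℝ) + 1 + ε) * (crowd T L).ncard + ((d : ℝ) + 1) * (Fintype.card W - (crowd T L).ncard) ≤ S.card + d →
      ∃ P : W → Finset E, (∀ u, (P u).Nonempty) ∧ (∀ u u', u ≠ u' → Disjoint (P u) (P u')) ∧
        (∀ x, x ∈ S ↔ ∃ u, x ∈ P u) ∧ ∀ u u', u ≠ u' → (M (P u) (P u') ↔ T.Adj u u') := by
  classical
  have hkε : (0 : ℝ) < (k : ℝ) + 1 + ε / 2 := by positivity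
  obtain ⟨N₀, hN₀⟩ := carries_large (E := E) hE hk hkd hkd' (δ := (ε / 2) / ((k : ℝ) + 1 + ε / 2)) (by positivity)
  obtain ⟨L₀, hL₀⟩ := exists_nat_gt (2 * ((N₀ : ℝ) + 1) / ε)
  refine ⟨L₀ + 1, fun W _ T hT hW S hS hc => ?_⟩
  set L := L₀ + 1 with hL
  have hLε : ∀ l : ℕ, L ≤ l → (N₀ : ℝ) + 1 ≤ ε / 2 * l := by
    intro l hl
    have h1 : 2 * ((N₀ : ℝ) + 1) / ε < l := hL₀.trans_le (by
      have : L₀ ≤ l := by omega
      exact_mod_cast this)
    rw [div_lt_iff₀ hε] at h1
    linarith
  -- the leaves at an inner node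
  let Lf : inner T → Type := fun v => {u : W // u ∉ inner T ∧ T.Adj u v}
  have : ∀ v, Fintype (Lf v) := fun v => Fintype.ofFinite _
  have : Fintype (inner T) := Fintype.ofFinite _
  let l : inner T → ℕ := fun v => Fintype.card (Lf v)
  let ev : ∀ v : inner T, Lf v ≃ Fin (l v) := fun v => Fintype.equivFin _
  let w : inner T → ℕ := fun v => if l v < L then (d + 1) * l v else N₀ + ⌈((k : ℝ) + 1 + ε / 2) * l v⌉₊
  have hlv : ∀ v : inner T, l v = {x | x ∉ inner T ∧ T.Adj x v}.ncard := by
    intro v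
    show Fintype.card (Lf v) = _
    rw [← Nat.card_eq_fintype_card]
    rfl
  -- the inner neighbour of a leaf
  have hp : ∀ u : W, ∃ v : inner T, u ∉ inner T → T.Adj u v := by
    intro u
    by_cases hu : u ∈ inner T
    · exact ⟨⟨u, hu⟩, fun h => absurd hu h⟩
    · obtain ⟨p, hp⟩ := exists_nbr hT.connected (by omega) u
      exact ⟨⟨p, nbr_inner hT.connected hW hu hp⟩, fun _ => hp⟩
  choose p hp using hp
  have hpu : ∀ (u : W) (v : inner T), u ∉ inner T → T.Adj u v → p u = v := fun u v hu huv =>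
    Subtype.ext (leaf_unique hu (hp u hu) huv)
  -- counting
  have hfib : ∀ v : inner T, ((univ.filter (fun u : W => u ∉ inner T)).filter (fun u => p u = v)).card = l v := by
    intro v
    rw [show l v = (univ : Finset (Lf v)).card from rfl]
    symm
    refine card_bij (fun u _ => u.1) ?_ ?_ ?_
    · intro u _
      rw [mem_filter, mem_filter]
      exact ⟨⟨mem_univ _, u.2.1⟩, hpu _ _ u.2.1 u.2.2⟩
    · intro u _ u' _ huu
      exact Subtype.ext huu
    · intro u hu
      rw [mem_filter, mem_filter] at hu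
      refine ⟨⟨u, hu.1.2, ?_⟩, mem_univ _, rfl⟩
      rw [← hu.2]
      exact hp u hu.1.2
  have hn : Fintype.card W = ∑ v, l v + Fintype.card (inner T) := by
    have h1 : (univ.filter (fun u : W => u ∉ inner T)).card = ∑ v, l v := by
      rw [card_eq_sum_card_fiberwise (f := p) (t := univ) (fun u _ => mem_coe.2 (mem_univ _))]
      exact sum_congr rfl fun v _ => hfib v
    have h2 : (univ.filter (fun u : W => u ∈ inner T)).card = Fintype.card (inner T) := by
      rw [Fintype.card_subtype]
    have h3 := card_filter_add_card_filter_not (s := (univ : Finset W)) (fun u => u ∈ inner T)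
    rw [h1, h2, card_univ] at h3
    omega
  have hb : (crowd T L).ncard = ∑ v, if l v < L then 0 else l v := by
    have h1 : (crowd T L).ncard = (univ.filter (fun u : W => u ∈ crowd T L)).card := by
      rw [← Set.ncard_coe_finset]
      congr 1
      ext u
      simp
    have h2 : ∀ v : inner T, (if l v < L then 0 else l v) =
        ((univ.filter (fun u : W => u ∈ crowd T L)).filter (fun u => p u = v)).card := by
      intro v
      split_ifs with h
      · symm
        rw [card_eq_zero, filter_eq_empty_iff]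
        intro u hu hpv
        obtain ⟨hu1, v', hv', hL'⟩ := (mem_filter.1 hu).2
        have h3 : v' = v := by
          have := leaf_unique hu1 (hp u hu1) hv'
          rw [← this, hpv]
        rw [h3, ← hlv v] at hL'
        omega
      · rw [← hfib v]
        congr 1
        ext u
        rw [mem_filter, mem_filter, mem_filter, mem_filter]
        constructor
        · rintro ⟨⟨_, hu⟩, hpv⟩
          refine ⟨⟨mem_univ _, hu, v, ?_, ?_⟩, hpv⟩
          · rw [← hpv]
            exact hp u hu
          · rw [← hlv v]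
            omega
        · rintro ⟨⟨_, hu⟩, hpv⟩
          exact ⟨⟨mem_univ _, hu.1⟩, hpv⟩
    rw [h1, card_eq_sum_card_fiberwise (f := p) (t := univ) (fun u _ => mem_coe.2 (mem_univ _))]
    exact sum_congr rfl fun v _ => (h2 v).symm
  have hw : ∀ v, (w v : ℝ) ≤ ((d : ℝ) + 1) * (l v - if l v < L then 0 else l v : ℕ) +
      ((k : ℝ) + 1 + ε) * (if l v < L then 0 else l v : ℕ) := by
    intro v
    simp only [w]
    split_ifs with h
    · push_cast
      simp
    · rw [Nat.sub_self]
      push_cast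
      have h1 := (Nat.ceil_lt_add_one (a := ((k : ℝ) + 1 + ε / 2) * l v) (by positivity)).le
      have h2 := hLε (l v) (not_lt.1 h)
      linarith
  have hS3 : d + 1 + d ≤ S.card + d ∧ ∑ v, (d + 1 + w v) ≤ S.card + d := by
    have h1 : ((∑ v, (d + 1 + w v) : ℕ) : ℝ) ≤ S.card + d := by
      refine le_trans ?_ hc
      rw [hb, hn]
      push_cast
      have h2 : ∀ v, ((l v - if l v < L then 0 else l v : ℕ) : ℝ) = (l v : ℝ) - (if l v < L then 0 else l v : ℕ) := by
        intro v
        rw [Nat.cast_sub]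
        split_ifs
        · exact Nat.zero_le _
        · exact le_rfl
      calc ∑ v, ((d : ℝ) + 1 + w v) ≤ ∑ v : inner T, ((d : ℝ) + 1 +
            (((d : ℝ) + 1) * ((l v : ℝ) - (if l v < L then 0 else l v : ℕ)) +
              ((k : ℝ) + 1 + ε) * (if l v < L then 0 else l v : ℕ))) := by
            refine sum_le_sum fun v _ => ?_
            have h3 := hw v
            rw [h2 v] at h3
            linarith
        _ = ((k : ℝ) + 1 + ε) * (∑ v, ((if l v < L then 0 else l v : ℕ) : ℝ)) + ((d : ℝ) + 1) *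
            (((∑ v, (l v : ℝ)) + (Fintype.card (inner T) : ℝ)) - ∑ v, ((if l v < L then 0 else l v : ℕ) : ℝ)) := by
            simp only [sum_add_distrib, ← mul_sum, sum_sub_distrib, sum_const, card_univ, nsmul_eq_mul, mul_one]
            ring
        _ ≤ _ := by
            push_cast
            exact le_rfl
    have h2 : ∑ v, (d + 1 + w v) ≤ S.card + d := by exact_mod_cast h1
    refine ⟨?_, h2⟩
    have hwl : ∀ v, (k + 1) * l v ≤ w v := by
      intro v
      simp only [w]
      split_ifs with h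
      · exact Nat.mul_le_mul_right _ (by omega)
      · have h3 : ((k : ℝ) + 1) * l v ≤ ((k : ℝ) + 1 + ε / 2) * l v :=
          mul_le_mul_of_nonneg_right (by linarith) (Nat.cast_nonneg _)
        have h4 := h3.trans (Nat.le_ceil _)
        have h5 : (k + 1) * l v ≤ ⌈((k : ℝ) + 1 + ε / 2) * l v⌉₊ := by exact_mod_cast h4
        omega
    have h3 : (k + 1) * ∑ v, l v ≤ ∑ v, w v := by
      rw [mul_sum]
      exact sum_le_sum fun v _ => hwl v
    have h4 : ∑ v, (d + 1 + w v) = Fintype.card (inner T) * (d + 1) + ∑ v, w v := by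
      rw [sum_add_distrib, sum_const, card_univ, smul_eq_mul]
    have hI : 1 ≤ Fintype.card (inner T) := by
      obtain ⟨v⟩ := (inner_tree hT hW).connected.nonempty
      exact Fintype.card_pos_iff.2 ⟨v⟩
    rcases Nat.lt_or_ge 1 (Fintype.card (inner T)) with hI2 | hI2
    · have h5 : 2 * (d + 1) ≤ Fintype.card (inner T) * (d + 1) := Nat.mul_le_mul_right _ hI2
      omega
    · have hI1 : Fintype.card (inner T) = 1 := by omega
      have h5 : (k + 1) * 2 ≤ (k + 1) * ∑ v, l v := Nat.mul_le_mul_left _ (by omega)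
      rw [hI1] at h4
      omega
  obtain ⟨hS3, hsum⟩ := hS3
  obtain ⟨f, g, c, D, hfg, hD, hDc, hne, hpair⟩ := tree_slabs (d := d) hE (by omega) (inner_tree hT hW) w (S := S) hS
    (by omega) hsum
  have hDS : ∀ v, D v ⊆ S := fun v x hx => (hD v x hx).1
  -- the stars in the slabs
  have hstar : ∀ v : inner T, Carries (S.filter (fun x => c x = v ∧ x ∉ D v)) (D v) (l v) := by
    intro v
    obtain ⟨p₀, hpS, hpc, hpD, hlt⟩ := hne v
    by_cases h : l v < L
    · refine (carries_small hE hfg (hDS v) hlt (l := l v) ?_).mono ?_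
      · rw [hDc v]
        simp only [w, if_pos h]
        exact le_rfl
      · intro x hx
        rw [mem_singleton.1 hx]
        exact mem_filter.2 ⟨hpS, hpc, hpD⟩
    · have hwv : w v = N₀ + ⌈((k : ℝ) + 1 + ε / 2) * l v⌉₊ := by simp only [w, if_neg h]
      refine hN₀ _ (D v) (fun A hA => hS A (hA.trans (hDS v))) (by rw [hDc v, hwv]; omega) (l v) ?_
      rw [hDc v, hwv]
      have h5 : 1 - ε / 2 / ((k : ℝ) + 1 + ε / 2) = ((k : ℝ) + 1) / ((k : ℝ) + 1 + ε / 2) := by
        field_simp
        ring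
      rw [h5, div_mul_eq_mul_div, le_div_iff₀ hkε]
      have h6 := Nat.le_ceil (((k : ℝ) + 1 + ε / 2) * l v)
      have h7 : (0 : ℝ) ≤ (N₀ : ℝ) := Nat.cast_nonneg _
      have h8 : (0 : ℝ) ≤ (k : ℝ) + 1 := by positivity
      push_cast
      nlinarith
  choose Q R hQ1 hQ2 hQ3 hQ4 hQ5 using hstar
  -- the parts
  let Pi : inner T → Finset E := fun v => (S.filter (fun x => c x = v ∧ x ∉ D v)) ∪ Q v
  let Pl : (v : inner T) → Lf v → Finset E := fun v u => R v (ev v u)
  let P : W → Finset E := fun u => if h : u ∈ inner T then Pi ⟨u, h⟩ else Pl (p u) ⟨u, h, hp u h⟩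
  have hPi : ∀ v : inner T, P v = Pi v := fun v => by
    simp only [P, dif_pos v.2]
  have hPl : ∀ u : W, ∀ h : u ∉ inner T, P u = Pl (p u) ⟨u, h, hp u h⟩ := fun u h => by
    simp only [P, dif_neg h]
  have hPl' : ∀ (v : inner T) (u : Lf v), P u.1 = Pl v u := by
    rintro v ⟨u, hu, huv⟩
    rw [hPl u hu]
    have hpv : p u = v := Subtype.ext (leaf_unique hu (hp u hu) huv)
    subst hpv
    rfl
  have hQD : ∀ v, Q v ⊆ D v := fun v x hx => (hQ3 v x).2 (Or.inl hx)
  have hRD : ∀ v i, R v i ⊆ D v := fun v i x hx => (hQ3 v x).2 (Or.inr ⟨i, hx⟩)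
  have hcls : ∀ v : inner T, ((S.filter (fun x => c x = v) : Finset E) : Set E) = {x | x ∈ S ∧ c x = v} := by
    intro v
    ext x
    simp
  have hcore : ∀ v : inner T, ((S.filter (fun x => c x = v ∧ x ∉ D v) : Finset E) : Set E) =
      {x | x ∈ S ∧ c x = v ∧ x ∉ D v} := by
    intro v
    ext x
    simp
  have hDcls : ∀ v, D v ⊆ S.filter (fun x => c x = v) := fun v x hx => mem_filter.2 (hD v x hx)
  have hPicls : ∀ v, Pi v ⊆ S.filter (fun x => c x = v) := by
    intro v x hx
    rcases mem_union.1 hx with hx | hx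
    · rw [mem_filter] at hx ⊢
      exact ⟨hx.1, hx.2.1⟩
    · exact hDcls v (hQD v hx)
  have hPlD : ∀ v u, Pl v u ⊆ D v := fun v u => hRD v _
  -- the relations of the classes
  have r1 : ∀ u v : inner T, u ≠ v → T.Adj u v → M (Pi u) (Pi v) := by
    intro u v huv hadj
    have h1 := (hpair u v huv).1 hadj
    rw [← hcore u, ← hcore v] at h1
    exact M.mono h1 subset_union_left subset_union_left
  have r2 : ∀ u v : inner T, u ≠ v → ¬ T.Adj u v → ∀ A B : Finset E, A ⊆ S.filter (fun x => c x = u) →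
      B ⊆ S.filter (fun x => c x = v) → ¬ M A B := by
    intro u v huv hadj A B hA hB hm
    have h1 := (hpair u v huv).2.1 hadj
    rw [← hcls u, ← hcls v] at h1
    exact h1 (M.mono hm hA hB)
  have r3 : ∀ u v : inner T, u ≠ v → ∀ A B : Finset E, A ⊆ S.filter (fun x => c x = u) →
      B ⊆ D v → ¬ M A B := by
    intro u v huv A B hA hB hm
    have h1 := (hpair u v huv).2.2
    rw [← hcls u] at h1
    exact h1 (M.mono hm hA hB)
  -- every node is inner or a leaf
  have hcase : ∀ u : W, (∃ v : inner T, u = v) ∨ ∃ (v : inner T) (x : Lf v), u = x.1 := by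
    intro u
    by_cases h : u ∈ inner T
    · exact Or.inl ⟨⟨u, h⟩, rfl⟩
    · exact Or.inr ⟨p u, ⟨u, h, hp u h⟩, rfl⟩
  -- inner against leaf
  have hil : ∀ (a v : inner T) (x : Lf v), M (Pi a) (Pl v x) ↔ T.Adj a x.1 := by
    intro a v x
    by_cases hav : a = v
    · subst hav
      refine ⟨fun _ => x.2.2.symm, fun _ => ?_⟩
      have h4 := hQ4 a (ev a x)
      rw [← coe_union] at h4
      exact h4
    · refine ⟨fun h => absurd h (r3 a v hav _ _ (hPicls a) (hPlD v x)), fun h => ?_⟩
      exact absurd (Subtype.ext (leaf_unique x.2.1 h.symm x.2.2)) hav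
  refine ⟨P, ?_, ?_, ?_, ?_⟩
  · intro u
    rcases hcase u with ⟨v, rfl⟩ | ⟨v, x, rfl⟩
    · rw [hPi]
      obtain ⟨x, hx1, hx2, hx3, -⟩ := hne v
      exact ⟨x, mem_union_left _ (mem_filter.2 ⟨hx1, hx2, hx3⟩)⟩
    · rw [hPl']
      exact hQ1 v (ev v x)
  · intro u u' huu
    rcases hcase u with ⟨v, rfl⟩ | ⟨v, x, rfl⟩
    · rcases hcase u' with ⟨v', rfl⟩ | ⟨v', x', rfl⟩
      · rw [hPi, hPi, disjoint_left]
        intro y hy hy'
        have h1 := (mem_filter.1 (hPicls v hy)).2
        have h2 := (mem_filter.1 (hPicls v' hy')).2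
        exact huu (by rw [← h1, h2])
      · rw [hPi, hPl', disjoint_left]
        intro y hy hy'
        have h1 := (mem_filter.1 (hPicls v hy)).2
        have h2 := (hD v' y (hPlD v' x' hy')).2
        have h3 : v = v' := by rw [← h1, h2]
        subst h3
        rcases mem_union.1 hy with hy | hy
        · exact (mem_filter.1 hy).2.2 (hPlD v x' hy')
        · exact disjoint_left.1 (hQ2 v (ev v x')) hy hy'
    · rcases hcase u' with ⟨v', rfl⟩ | ⟨v', x', rfl⟩
      · rw [hPi, hPl', disjoint_left]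
        intro y hy' hy
        have h1 := (mem_filter.1 (hPicls v' hy)).2
        have h2 := (hD v y (hPlD v x hy')).2
        have h3 : v' = v := by rw [← h1, h2]
        subst h3
        rcases mem_union.1 hy with hy | hy
        · exact (mem_filter.1 hy).2.2 (hPlD v' x hy')
        · exact disjoint_left.1 (hQ2 v' (ev v' x)) hy hy'
      · rw [hPl', hPl', disjoint_left]
        intro y hy hy'
        have h1 := (hD v y (hPlD v x hy)).2
        have h2 := (hD v' y (hPlD v' x' hy')).2
        have h3 : v = v' := by rw [← h1, h2]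
        subst h3
        refine disjoint_left.1 (disjoint_of_not_meet (hQ5 v (ev v x) (ev v x') fun h => huu ?_)) hy hy'
        rw [(ev v).injective h]
  · intro y
    constructor
    · intro hy
      by_cases h : y ∈ D (c y)
      · rcases (hQ3 (c y) y).1 h with hi | ⟨j, hj⟩
        · refine ⟨c y, ?_⟩
          rw [hPi]
          exact mem_union_right _ hi
        · refine ⟨((ev (c y)).symm j).1, ?_⟩
          rw [hPl']
          show y ∈ R (c y) (ev (c y) ((ev (c y)).symm j))
          rw [Equiv.apply_symm_apply]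
          exact hj
      · refine ⟨c y, ?_⟩
        rw [hPi]
        exact mem_union_left _ (mem_filter.2 ⟨hy, rfl, h⟩)
    · rintro ⟨u, hu⟩
      rcases hcase u with ⟨v, rfl⟩ | ⟨v, x, rfl⟩
      · rw [hPi] at hu
        exact (mem_filter.1 (hPicls v hu)).1
      · rw [hPl'] at hu
        exact hDS v (hPlD v x hu)
  · intro u u' huu
    rcases hcase u with ⟨v, rfl⟩ | ⟨v, x, rfl⟩
    · rcases hcase u' with ⟨v', rfl⟩ | ⟨v', x', rfl⟩
      · rw [hPi, hPi]
        have hvv : v ≠ v' := fun h => huu (by rw [h])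
        refine ⟨fun h => ?_, r1 v v' hvv⟩
        by_contra hcon
        exact r2 v v' hvv hcon _ _ (hPicls v) (hPicls v') h
      · rw [hPi, hPl']
        exact hil v v' x'
    · rcases hcase u' with ⟨v', rfl⟩ | ⟨v', x', rfl⟩
      · rw [hPi, hPl', T.adj_comm, ← hil v' v x]
        exact ⟨M.symm, M.symm⟩
      · rw [hPl', hPl']
        refine ⟨fun h => ?_, fun h => absurd (nbr_inner hT.connected hW x.2.1 h) x'.2.1⟩
        exfalso
        by_cases hvv : v = v'
        · subst hvv
          have hne' : ev v x ≠ ev v x' := fun h => huu (by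
            rw [(ev v).injective h])
          exact hQ5 v _ _ hne' h
        · exact r3 v v' hvv _ _ ((hPlD v x).trans (hDcls v)) (hPlD v' x') h

end Pool.Agent.Helper71.TVE
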